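import Pool.Agent.Helper69.QB.Defs

/-!
Project QB, piece BC: two feasible points.
-/

set_option autoImplicit false

namespace Pool.Agent.Helper69.QB

open Pool.Agent.Helper69.WV Pool.Agent.Helper53.BN

private theorem BeC_dvd (k : ℕ) : Nat.choose k 2 = k * (k - 1) / 2 := Nat.choose_two_right k

private theorem BeC_weights_one {k : ℕ} (a : k.Partition) (h : a.parts = Multiset.replicate k 1) :
    weights a = Multiset.replicate (k * (k - 1) / 2) 1 := by
  unfold weights
  rw [h, Multiset.eq_replicate]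
  constructor
  · rw [Multiset.card_map, Multiset.card_powersetCard, Multiset.card_replicate, BeC_dvd]
  · intro b hb
    rw [Multiset.mem_map] at hb
    obtain ⟨t, ht, rfl⟩ := hb
    rw [Multiset.mem_powersetCard] at ht
    have h1 : t = Multiset.replicate (Multiset.card t) 1 :=
      Multiset.eq_replicate_card.2 fun b hb => Multiset.eq_of_mem_replicate
        (Multiset.mem_of_le ht.1 hb)
    rw [h1, Multiset.prod_replicate, one_pow]

private theorem BeC_weights_two {k : ℕ} (a : k.Partition) (h : a.parts = {k - 1, 1}) :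
    weights a = {k - 1} := by
  unfold weights
  rw [h, ← Multiset.replicate_one (k - 1), Multiset.eq_replicate]
  constructor
  · rw [Multiset.card_map, Multiset.card_powersetCard]
    simp
  · intro b hb
    rw [Multiset.mem_map] at hb
    obtain ⟨t, ht, rfl⟩ := hb
    rw [Multiset.mem_powersetCard] at ht
    have h1 : t = {k - 1, 1} := Multiset.eq_of_le_of_card_le ht.1 (by
      rw [ht.2]
      simp)
    rw [h1]
    simp

private theorem BeC_part_one (n : ℕ) : ∃ a : n.Partition, a.parts = Multiset.replicate n 1 := by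
  refine ⟨⟨Multiset.replicate n 1, ?_, ?_⟩, rfl⟩
  · intro i hi
    rw [Multiset.eq_of_mem_replicate hi]
    exact Nat.one_pos
  · simp

private theorem BeC_part_two (k : ℕ) (hk : 2 ≤ k) : ∃ a : k.Partition, a.parts = {k - 1, 1} := by
  refine ⟨⟨{k - 1, 1}, ?_, ?_⟩, rfl⟩
  · intro i hi
    simp only [Multiset.insert_eq_cons, Multiset.mem_cons, Multiset.mem_singleton] at hi
    omega
  · simp only [Multiset.insert_eq_cons, Multiset.sum_cons, Multiset.sum_singleton]
    omega

private theorem BeC_part_max (k l : ℕ) (hk : 2 ≤ k) : ∃ p : l.Partition,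
    p.parts = Multiset.replicate (l / (k - 1)) (k - 1) + Multiset.replicate (l % (k - 1)) 1 := by
  refine ⟨⟨Multiset.replicate (l / (k - 1)) (k - 1) + Multiset.replicate (l % (k - 1)) 1,
    ?_, ?_⟩, rfl⟩
  · intro i hi
    rw [Multiset.mem_add] at hi
    rcases hi with hi | hi
    · rw [Multiset.eq_of_mem_replicate hi]
      omega
    · rw [Multiset.eq_of_mem_replicate hi]
      exact Nat.one_pos
  · rw [Multiset.sum_add, Multiset.sum_replicate, Multiset.sum_replicate, smul_eq_mul, smul_eq_mul,
      mul_one, mul_comm]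
    exact Nat.div_add_mod l (k - 1)

private theorem BeC_smul (n m a : ℕ) :
    n • Multiset.replicate m a = Multiset.replicate (n * m) a := by
  rw [Multiset.nsmul_replicate]

private theorem BeC_pos (k : ℕ) (hk : 2 ≤ k) : 0 < k * (k - 1) / 2 := by
  rw [← BeC_dvd]
  exact Nat.choose_pos hk

/-- The point `z (1^k) = l`, `y (1^l) = k (k - 1) / 2`: the designs with the fewest blocks. -/
theorem feasible_min (k l : ℕ) (hk : 2 ≤ k) : ∃ (z : k.Partition → ℕ) (y : l.Partition → ℕ),
    Feasible k l z y ∧ ∑ a, z a = l ∧ ∑ p, y p = k * (k - 1) / 2 := by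
  classical
  obtain ⟨a₀, ha₀⟩ := BeC_part_one k
  obtain ⟨p₀, hp₀⟩ := BeC_part_one l
  have hy : ∑ p : l.Partition, (if p = p₀ then k * (k - 1) / 2 else 0) = k * (k - 1) / 2 := by
    rw [Finset.sum_ite_eq']
    simp
  refine ⟨fun a => if a = a₀ then l else 0, fun p => if p = p₀ then k * (k - 1) / 2 else 0,
    ⟨?_, ?_, ?_⟩, ?_, hy⟩
  · intro a ha
    have hne : a ≠ a₀ := by
      rintro rfl
      rw [ha₀, Multiset.card_replicate] at ha
      omega
    simp [hne]
  · rw [hy]
    exact BeC_pos k hk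
  · simp only [ite_smul, zero_smul]
    rw [Finset.sum_ite_eq', Finset.sum_ite_eq']
    simp only [Finset.mem_univ, if_true]
    rw [BeC_weights_one a₀ ha₀, hp₀, BeC_smul, BeC_smul, mul_comm]
  · rw [Finset.sum_ite_eq']
    simp

/-- The point `z ([k-1,1]) = (l / (k-1)) C`, `z (1^k) = l % (k-1)`, `y ((k-1)^(l/(k-1)) 1^(l % (k-1))) = C`
with `C = k (k - 1) / 2` (for `k = 2` the two patterns coincide: add the values). -/
theorem feasible_max (k l : ℕ) (hk : 2 ≤ k) : ∃ (z : k.Partition → ℕ) (y : l.Partition → ℕ),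
    Feasible k l z y ∧ ∑ a, z a = l / (k - 1) * (k * (k - 1) / 2) + l % (k - 1) ∧
      ∑ p, y p = k * (k - 1) / 2 := by
  classical
  obtain ⟨a₀, ha₀⟩ := BeC_part_one k
  obtain ⟨a₁, ha₁⟩ := BeC_part_two k hk
  obtain ⟨p₀, hp₀⟩ := BeC_part_max k l hk
  have hy : ∑ p : l.Partition, (if p = p₀ then k * (k - 1) / 2 else 0) = k * (k - 1) / 2 := by
    rw [Finset.sum_ite_eq']
    simp
  refine ⟨fun a => (if a = a₁ then l / (k - 1) * (k * (k - 1) / 2) else 0) +
    (if a = a₀ then l % (k - 1) else 0), fun p => if p = p₀ then k * (k - 1) / 2 else 0,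
    ⟨?_, ?_, ?_⟩, ?_, hy⟩
  · intro a ha
    have hne : a ≠ a₀ := by
      rintro rfl
      rw [ha₀, Multiset.card_replicate] at ha
      omega
    have hne' : a ≠ a₁ := by
      rintro rfl
      rw [ha₁] at ha
      simp at ha
    simp [hne, hne']
  · rw [hy]
    exact BeC_pos k hk
  · simp only [add_smul, ite_smul, zero_smul]
    rw [Finset.sum_add_distrib, Finset.sum_ite_eq', Finset.sum_ite_eq', Finset.sum_ite_eq']
    simp only [Finset.mem_univ, if_true]
    rw [BeC_weights_one a₀ ha₀, BeC_weights_two a₁ ha₁, hp₀, smul_add, BeC_smul, BeC_smul,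
      BeC_smul, ← Multiset.replicate_one, BeC_smul, mul_one, mul_comm (l / (k - 1)),
      mul_comm (l % (k - 1))]
  · rw [Finset.sum_add_distrib, Finset.sum_ite_eq', Finset.sum_ite_eq']
    simp

end Pool.Agent.Helper69.QB
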