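import Pool.Agent.Helper69.QB.Wt

/-!
Project QB, piece DF: every design gives a feasible point of the linear program.
-/

set_option autoImplicit false

namespace Pool.Agent.Helper69.QB

open Pool.Agent.Helper69.WV Pool.Agent.Helper53.BN

private theorem DesignFeas_pairs (v : ℕ) :
    ((Finset.univ : Finset (Fin v × Fin v)).filter (fun p => p.1 < p.2)).card = v * (v - 1) / 2 := by
  classical
  have h1 : ((Finset.univ : Finset (Fin v × Fin v)).filter (fun p => p.1 < p.2)).card =
      ((Finset.univ : Finset (Fin v × Fin v)).filter (fun p => p.2 < p.1)).card := by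
    refine Finset.card_bij (fun p _ => (p.2, p.1)) ?_ ?_ ?_
    · intro p hp
      simpa using hp
    · rintro ⟨a, b⟩ _ ⟨c, d⟩ _ h
      simp only [Prod.mk.injEq] at h ⊢
      exact ⟨h.2, h.1⟩
    · rintro ⟨a, b⟩ h
      exact ⟨(b, a), by simpa using h, rfl⟩
  have h2 : ((Finset.univ : Finset (Fin v × Fin v)).filter (fun p => p.1 < p.2)).card +
      ((Finset.univ : Finset (Fin v × Fin v)).filter (fun p => p.2 < p.1)).card =
      (Finset.univ : Finset (Fin v)).offDiag.card := by
    rw [← Finset.card_union_of_disjoint]
    · congr 1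
      ext ⟨a, b⟩
      simp only [Finset.mem_union, Finset.mem_filter, Finset.mem_univ, true_and,
        Finset.mem_offDiag]
      exact ne_iff_lt_or_gt.symm
    · rw [Finset.disjoint_filter]
      intro p _ h h'
      exact absurd h (not_lt.2 h'.le)
  rw [Finset.offDiag_card, Finset.card_univ, Fintype.card_fin, ← h1] at h2
  rw [Nat.mul_sub_one]
  omega

private theorem DesignFeas_cc {ι V : Type} [Fintype ι] [DecidableEq V] {k : ℕ}
    (f : ι → Fin k → V) (x y : V) :
    cc f x y = ∑ b, (Finset.univ.filter fun i => f b i = x).card *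
      (Finset.univ.filter fun i => f b i = y).card := by
  classical
  unfold cc
  rw [Nat.card_eq_fintype_card, Fintype.card_subtype, Finset.card_filter, Fintype.sum_prod_type]
  refine Finset.sum_congr rfl fun b _ => ?_
  rw [Fintype.sum_prod_type, Finset.card_filter, Finset.card_filter, Finset.sum_mul_sum]
  refine Finset.sum_congr rfl fun i _ => Finset.sum_congr rfl fun j _ => ?_
  by_cases h1 : f b i = x <;> by_cases h2 : f b j = y <;> simp [h1, h2]

private theorem DesignFeas_swap {ι κ : Type} (s : Finset ι) (t : Finset κ) (g : ι → κ → ℕ) :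
    ∑ b ∈ s, (t.val.map (fun q => g b q)).filter (· ≠ 0) =
      ∑ q ∈ t, (s.val.map (fun b => g b q)).filter (· ≠ 0) := by
  classical
  ext w
  rw [Multiset.count_sum', Multiset.count_sum']
  by_cases hw : w = 0
  · subst hw
    rw [Finset.sum_eq_zero, Finset.sum_eq_zero]
    · intro q _
      exact Multiset.count_filter_of_neg (by simp)
    · intro q _
      exact Multiset.count_filter_of_neg (by simp)
  · have e1 : ∀ b, Multiset.count w ((t.val.map (fun q => g b q)).filter (· ≠ 0)) =
        ∑ q ∈ t, if w = g b q then 1 else 0 := by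
      intro b
      rw [Multiset.count_filter_of_pos (p := (· ≠ 0)) hw, Multiset.count_map, ← Finset.card_filter]
      rfl
    have e2 : ∀ q, Multiset.count w ((s.val.map (fun b => g b q)).filter (· ≠ 0)) =
        ∑ b ∈ s, if w = g b q then 1 else 0 := by
      intro b
      rw [Multiset.count_filter_of_pos (p := (· ≠ 0)) hw, Multiset.count_map, ← Finset.card_filter]
      rfl
    simp only [e1, e2]
    exact Finset.sum_comm

private theorem DesignFeas_fib {ι κ : Type} [Fintype κ] [DecidableEq κ] (s : Finset ι) (g : ι → κ)
    (w : κ → Multiset ℕ) :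
    ∑ a, (s.filter fun b => g b = a).card • w a = ∑ b ∈ s, w (g b) := by
  rw [← Finset.sum_fiberwise s g (fun b => w (g b))]
  refine Finset.sum_congr rfl fun a _ => ?_
  rw [← Finset.sum_const]
  refine Finset.sum_congr rfl fun b hb => ?_
  rw [(Finset.mem_filter.1 hb).2]

/-- Proof. `NB` gives `ι`, `f : ι → Fin k → Fin v`. Let `n b x` be the number of positions of `x` in
the block `b` (`Fintype.card {i // f b i = x}`); `∑ x, n b x = k`. Pattern of `b`:
`pat b = Nat.Partition.ofSums k (univ.val.map (n b)) _`, whose parts are the nonzero `n b x`; it has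
at least two parts since `b` is not constant. For a pair `x < y`:
`ptn (x,y) = Nat.Partition.ofSums l (univ.val.map fun b => n b x * n b y) _`
(`∑ b, n b x * n b y = cc f x y = l`). `z a` = number of `b` with `pat b = a`, `y p` = number of
pairs `x < y` with `ptn (x,y) = p`. Then `∑ a, z a • weights a = ∑ b, weights (pat b)`
(`Finset.sum_fiberwise` or similar), and by `weights_eq` this is
`∑ b, ((pairs x < y).val.map (n b x * n b y)).filter (≠ 0)`, while the other side is
`∑ (x<y), ((univ : Finset ι).val.map (n b x * n b y)).filter (≠ 0)`. Both are the multiset of the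
nonzero numbers `n b x * n b y` over all `b` and all `x < y` (compare the counts of every `w`:
`Multiset.count_sum'`, `Multiset.count_filter`, `Multiset.count_map`, exchange the sums). -/
theorem design_feasible {k l v c : ℕ} (hv : 2 ≤ v) (h : NB k l v c) :
    ∃ (z : k.Partition → ℕ) (y : l.Partition → ℕ), Feasible k l z y ∧ ∑ a, z a = c ∧
      ∑ p, y p = v * (v - 1) / 2 := by
  classical
  obtain ⟨ι, hι, f, h1, h2, -, h4⟩ := h
  have : Fintype ι := Fintype.ofFinite ι
  set n : ι → Fin v → ℕ := fun b x => (Finset.univ.filter fun i => f b i = x).card with hn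
  have hnsum : ∀ b, (Finset.univ.val.map (n b)).sum = k := by
    intro b
    have := Finset.card_eq_sum_card_fiberwise (f := f b) (s := Finset.univ) (t := Finset.univ)
      (fun _ _ => Finset.mem_coe.2 (Finset.mem_univ _))
    rw [Finset.card_univ, Fintype.card_fin] at this
    exact this.symm
  set pat : ι → k.Partition := fun b => Nat.Partition.ofSums k (Finset.univ.val.map (n b)) (hnsum b)
    with hpat
  have hl : ∀ q : Fin v × Fin v, q.1 < q.2 →
      ((Finset.univ : Finset ι).val.map (fun b => n b q.1 * n b q.2)).sum = l := by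
    intro q hq
    rw [← h2 q.1 q.2 (by simpa using hq.ne), DesignFeas_cc]
    rfl
  set ptn : Fin v × Fin v → l.Partition := fun q => if hq : q.1 < q.2 then
    Nat.Partition.ofSums l ((Finset.univ : Finset ι).val.map (fun b => n b q.1 * n b q.2)) (hl q hq)
    else default with hptn
  set P : Finset (Fin v × Fin v) := Finset.univ.filter (fun p => p.1 < p.2) with hP
  refine ⟨fun a => (Finset.univ.filter fun b => pat b = a).card,
    fun p => (P.filter fun q => ptn q = p).card, ⟨?_, ?_, ?_⟩, ?_, ?_⟩
  · intro a ha
    rw [Finset.card_eq_zero, Finset.filter_eq_empty_iff]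
    rintro b - rfl
    obtain ⟨i, j, hij⟩ := h1 b
    have h5 : Multiset.card (pat b).parts =
        (Finset.univ.filter fun x => n b x ≠ 0).card := by
      change Multiset.card (Multiset.filter (· ≠ 0) (Finset.univ.val.map (n b))) = _
      rw [Multiset.filter_map, Multiset.card_map]
      rfl
    have h6 : ({f b i, f b j} : Finset (Fin v)) ⊆ Finset.univ.filter fun x => n b x ≠ 0 := by
      intro x hx
      rw [Finset.mem_filter]
      refine ⟨Finset.mem_univ _, ?_⟩
      rw [hn]
      simp only [ne_eq, Finset.card_eq_zero, Finset.filter_eq_empty_iff, Finset.mem_univ,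
        forall_true_left, not_forall, not_not]
      rcases Finset.mem_insert.1 hx with rfl | hx
      · exact ⟨i, rfl⟩
      · exact ⟨j, (Finset.mem_singleton.1 hx).symm⟩
    have h7 := Finset.card_le_card h6
    rw [Finset.card_pair hij, ← h5] at h7
    omega
  · have h5 : ∑ p, (P.filter fun q => ptn q = p).card = P.card :=
      (Finset.card_eq_sum_card_fiberwise (f := ptn) (s := P) (t := Finset.univ)
        (fun _ _ => Finset.mem_coe.2 (Finset.mem_univ _))).symm
    rw [h5, hP, DesignFeas_pairs]
    obtain ⟨m, rfl⟩ := Nat.exists_eq_add_of_le hv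
    have : 2 ≤ (2 + m) * (2 + m - 1) := by
      have : 2 + m - 1 = m + 1 := by omega
      rw [this]
      nlinarith
    omega
  · rw [DesignFeas_fib Finset.univ pat weights, DesignFeas_fib P ptn (fun p => p.parts)]
    have e1 : ∀ b, weights (pat b) = (P.val.map (fun q => n b q.1 * n b q.2)).filter (· ≠ 0) :=
      fun b => weights_eq (pat b) (n b) rfl
    have e2 : ∑ q ∈ P, (ptn q).parts =
        ∑ q ∈ P, ((Finset.univ : Finset ι).val.map (fun b => n b q.1 * n b q.2)).filter (· ≠ 0) := by
      refine Finset.sum_congr rfl fun q hq => ?_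
      have hq' : q.1 < q.2 := (Finset.mem_filter.1 hq).2
      rw [hptn]
      simp only [dif_pos hq']
      rfl
    rw [e2, Finset.sum_congr rfl fun b _ => e1 b]
    exact DesignFeas_swap Finset.univ P (fun b q => n b q.1 * n b q.2)
  · rw [← h4, Nat.card_eq_fintype_card, ← Finset.card_univ]
    exact (Finset.card_eq_sum_card_fiberwise (f := pat) (s := Finset.univ) (t := Finset.univ)
        (fun _ _ => Finset.mem_coe.2 (Finset.mem_univ _))).symm
  · rw [← DesignFeas_pairs]
    exact (Finset.card_eq_sum_card_fiberwise (f := ptn) (s := P) (t := Finset.univ)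
        (fun _ _ => Finset.mem_coe.2 (Finset.mem_univ _))).symm

end Pool.Agent.Helper69.QB
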