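import Pool.Agent.Helper69.QB.BeB
import Pool.Agent.Helper69.QB.BeC
import Pool.Agent.Helper69.QB.DesignFeas

/-!
Project QB, piece BD: bounds for the optimum of the linear program.
-/

set_option autoImplicit false

namespace Pool.Agent.Helper69.QB

open Pool.Agent.Helper69.WV Pool.Agent.Helper53.BN

/-- From `feasible_min` (nonempty) and `feasible_le`. -/
theorem beta_le (k l : ℕ) (hk : 2 ≤ k) : beta k l ≤ (l : ℝ) / ((k : ℝ) - 1) := by
  obtain ⟨z₀, y₀, h₀, -, -⟩ := feasible_min k l hk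
  refine csSup_le ⟨_, z₀, y₀, h₀, rfl⟩ ?_
  rintro x ⟨z, y, h, rfl⟩
  have h1 := feasible_le h
  have h2 : (0 : ℝ) < ((∑ p, y p : ℕ) : ℝ) := by exact_mod_cast h.2.1
  have h3 : (0 : ℝ) < (k : ℝ) - 1 := by
    have : (2 : ℝ) ≤ (k : ℝ) := by exact_mod_cast hk
    linarith
  rw [div_le_div_iff₀ h2 h3]
  have h4 : ((k - 1 : ℕ) : ℝ) = (k : ℝ) - 1 := by
    rw [Nat.cast_sub (by omega), Nat.cast_one]
  rw [← h4]
  exact_mod_cast h1

/-- From `feasible_max`. -/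
theorem beta_ge (k l : ℕ) (hk : 2 ≤ k) : ((l / (k - 1) : ℕ) : ℝ) ≤ beta k l := by
  obtain ⟨z, y, h, hz, hy⟩ := feasible_max k l hk
  have h1 := le_beta hk h
  have h2 : (0 : ℝ) < ((∑ p, y p : ℕ) : ℝ) := by exact_mod_cast h.2.1
  refine le_trans ?_ h1
  rw [le_div_iff₀ h2, hz, hy]
  have h3 : l / (k - 1) * (k * (k - 1) / 2) ≤ l / (k - 1) * (k * (k - 1) / 2) + l % (k - 1) :=
    Nat.le_add_right _ _
  exact_mod_cast h3

theorem beta_ge' (k l : ℕ) (hk : 2 ≤ k) : (l : ℝ) / ((k : ℝ) - 1) - 1 ≤ beta k l := by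
  refine le_trans ?_ (beta_ge k l hk)
  have h3 : (0 : ℝ) < (k : ℝ) - 1 := by
    have : (2 : ℝ) ≤ (k : ℝ) := by exact_mod_cast hk
    linarith
  have h4 : ((k - 1 : ℕ) : ℝ) = (k : ℝ) - 1 := by
    rw [Nat.cast_sub (by omega), Nat.cast_one]
  rw [sub_le_iff_le_add, div_le_iff₀ h3, ← h4]
  have h5 : l ≤ (l / (k - 1) + 1) * (k - 1) := by
    have h6 := Nat.div_add_mod l (k - 1)
    have h7 := Nat.mod_lt l (show 0 < k - 1 by omega)
    rw [Nat.add_mul, one_mul, mul_comm (l / (k - 1))]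
    omega
  exact_mod_cast h5

theorem beta_eq (k l : ℕ) (hk : 2 ≤ k) (h : k - 1 ∣ l) : beta k l = (l : ℝ) / ((k : ℝ) - 1) := by
  refine le_antisymm (beta_le k l hk) (le_trans (le_of_eq ?_) (beta_ge k l hk))
  have h4 : ((k - 1 : ℕ) : ℝ) = (k : ℝ) - 1 := by
    rw [Nat.cast_sub (by omega), Nat.cast_one]
  have h5 : ((k - 1 : ℕ) : ℝ) ≠ 0 := by
    have : k - 1 ≠ 0 := by omega
    exact_mod_cast this
  rw [Nat.cast_div h h5, h4]

/-- Points of the linear program close to the optimum (`exists_lt_of_lt_csSup`). -/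
theorem exists_near (k l : ℕ) (hk : 2 ≤ k) {x : ℝ} (hx : x < beta k l) :
    ∃ (z : k.Partition → ℕ) (y : l.Partition → ℕ), Feasible k l z y ∧
      x < ((∑ a, z a : ℕ) : ℝ) / ((∑ p, y p : ℕ) : ℝ) := by
  obtain ⟨z₀, y₀, h₀, -, -⟩ := feasible_min k l hk
  have hne : {x : ℝ | ∃ (z : k.Partition → ℕ) (y : l.Partition → ℕ), Feasible k l z y ∧
      x = ((∑ a, z a : ℕ) : ℝ) / ((∑ p, y p : ℕ) : ℝ)}.Nonempty := ⟨_, z₀, y₀, h₀, rfl⟩
  obtain ⟨w, ⟨z, y, h, rfl⟩, hw⟩ := exists_lt_of_lt_csSup hne hx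
  exact ⟨z, y, h, hw⟩

/-- The upper bound for the number of blocks of a design. -/
theorem nb_le_beta {k l v c : ℕ} (hk : 2 ≤ k) (hv : 2 ≤ v) (h : NB k l v c) :
    (c : ℝ) ≤ beta k l * ((v * (v - 1) / 2 : ℕ) : ℝ) := by
  obtain ⟨z, y, hf, hz, hy⟩ := design_feasible hv h
  have h1 := le_beta hk hf
  have h2 : (0 : ℝ) < ((∑ p, y p : ℕ) : ℝ) := by exact_mod_cast hf.2.1
  rw [div_le_iff₀ h2, hz, hy] at h1
  exact h1

/-- The lower bound for the number of blocks of a design: `design_feasible`, `feasible_sum`,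
`weights_sum_le`. -/
theorem nb_ge {k l v c : ℕ} (hv : 2 ≤ v) (h : NB k l v c) :
    l * (v * (v - 1) / 2) ≤ c * (k * (k - 1) / 2) := by
  obtain ⟨z, y, hf, hz, hy⟩ := design_feasible hv h
  rw [← hy, ← feasible_sum hf, ← hz, Finset.sum_mul]
  exact Finset.sum_le_sum fun a _ => Nat.mul_le_mul_left _ (weights_sum_le a)

end Pool.Agent.Helper69.QB
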