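import Pool.Agent.Helper69.QB.BsA
import Pool.Agent.Helper69.QB.Beta

/-!
Project QB, piece SB: the optimum of the linear program for the concurrences `1`, `2`, `3`.
-/

set_option autoImplicit false

namespace Pool.Agent.Helper69.QB

open Pool.Agent.Helper69.WV Pool.Agent.Helper53.BN

private theorem BetaSmall_one {n : ℕ} {t : Multiset ℕ} (ht : t ≤ Multiset.replicate n 1) :
    t.prod = 1 := by
  have h1 : t = Multiset.replicate (Multiset.card t) 1 :=
    Multiset.eq_replicate_card.2 fun b hb => Multiset.eq_of_mem_replicate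
      (Multiset.mem_of_le ht hb)
  rw [h1, Multiset.prod_replicate, one_pow]

private theorem BetaSmall_weights {k l n : ℕ} (a : k.Partition)
    (h : a.parts = l ::ₘ Multiset.replicate n 1) :
    weights a = Multiset.replicate (n.choose 2) 1 + Multiset.replicate n l := by
  unfold weights
  rw [h, Multiset.powersetCard_cons, Multiset.map_add]
  congr 1
  · rw [Multiset.eq_replicate]
    constructor
    · rw [Multiset.card_map, Multiset.card_powersetCard, Multiset.card_replicate]
    · intro b hb
      rw [Multiset.mem_map] at hb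
      obtain ⟨t, ht, rfl⟩ := hb
      rw [Multiset.mem_powersetCard] at ht
      exact BetaSmall_one ht.1
  · rw [Multiset.map_map, Multiset.eq_replicate]
    constructor
    · rw [Multiset.card_map, Multiset.card_powersetCard, Multiset.card_replicate,
        Nat.choose_one_right]
    · intro b hb
      rw [Multiset.mem_map] at hb
      obtain ⟨t, ht, rfl⟩ := hb
      rw [Multiset.mem_powersetCard] at ht
      change (l ::ₘ t).prod = l
      rw [Multiset.prod_cons, BetaSmall_one ht.1, mul_one]

private theorem BetaSmall_point (l n : ℕ) (hl : 1 ≤ l) (hn : 1 ≤ n) :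
    ∃ (z : (l + n).Partition → ℕ) (y : l.Partition → ℕ), Feasible (l + n) l z y ∧
      ∑ a, z a = l ∧ ∑ p, y p = l * n + n.choose 2 := by
  classical
  obtain ⟨a₀, ha₀⟩ : ∃ a : (l + n).Partition, a.parts = l ::ₘ Multiset.replicate n 1 := by
    refine ⟨⟨l ::ₘ Multiset.replicate n 1, ?_, ?_⟩, rfl⟩
    · intro i hi
      rw [Multiset.mem_cons] at hi
      rcases hi with hi | hi
      · omega
      · rw [Multiset.eq_of_mem_replicate hi]
        exact Nat.one_pos
    · simp
  obtain ⟨p₁, hp₁⟩ : ∃ p : l.Partition, p.parts = Multiset.replicate 1 l := by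
    refine ⟨⟨Multiset.replicate 1 l, ?_, ?_⟩, rfl⟩
    · intro i hi
      rw [Multiset.eq_of_mem_replicate hi]
      exact hl
    · simp
  obtain ⟨p₀, hp₀⟩ : ∃ p : l.Partition, p.parts = Multiset.replicate l 1 := by
    refine ⟨⟨Multiset.replicate l 1, ?_, ?_⟩, rfl⟩
    · intro i hi
      rw [Multiset.eq_of_mem_replicate hi]
      exact Nat.one_pos
    · simp
  have hy : ∑ p : l.Partition, ((if p = p₁ then l * n else 0) + (if p = p₀ then n.choose 2 else 0)) =
      l * n + n.choose 2 := by
    rw [Finset.sum_add_distrib, Finset.sum_ite_eq', Finset.sum_ite_eq']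
    simp
  refine ⟨fun a => if a = a₀ then l else 0,
    fun p => (if p = p₁ then l * n else 0) + (if p = p₀ then n.choose 2 else 0),
    ⟨?_, ?_, ?_⟩, ?_, hy⟩
  · intro a ha
    have hne : a ≠ a₀ := by
      rintro rfl
      rw [ha₀, Multiset.card_cons, Multiset.card_replicate] at ha
      omega
    simp [hne]
  · rw [hy]
    have : 0 < l * n := Nat.mul_pos (by omega) (by omega)
    omega
  · simp only [add_smul, ite_smul, zero_smul]
    rw [Finset.sum_add_distrib, Finset.sum_ite_eq', Finset.sum_ite_eq', Finset.sum_ite_eq']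
    simp only [Finset.mem_univ, if_true]
    rw [BetaSmall_weights a₀ ha₀, hp₁, hp₀, smul_add, Multiset.nsmul_replicate,
      Multiset.nsmul_replicate, Multiset.nsmul_replicate, Multiset.nsmul_replicate, mul_one,
      mul_comm l (n.choose 2), add_comm]
  · rw [Finset.sum_ite_eq']
    simp

/-- Proof: upper bound: in a feasible point every `a` with `z a > 0` has weights `≤ l` (they are
parts of partitions of `l`), so `feasible_sum` and `weights_small` give
`(∑ z) (k - l) (k + l - 1) ≤ 2 l ∑ y`. Lower bound: the point `z ([l, 1^(k-l)]) = l`,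
`y ([l]) = l (k - l)`, `y (1^l) = (k - l) (k - l - 1) / 2` (for `l = 1` the two partitions of `l`
coincide). -/
theorem beta_small (k l : ℕ) (hl1 : 1 ≤ l) (hl : l ≤ 3) (hk : l < k) :
    beta k l = 2 * (l : ℝ) / (((k : ℝ) - l) * ((k : ℝ) + l - 1)) := by
  classical
  obtain ⟨n, rfl⟩ : ∃ n, k = l + n := ⟨k - l, by omega⟩
  have hn : 1 ≤ n := by omega
  have hn' : (1 : ℝ) ≤ n := by exact_mod_cast hn
  have hl' : (1 : ℝ) ≤ l := by exact_mod_cast hl1
  have hD : (0 : ℝ) < (((l + n : ℕ) : ℝ) - l) * (((l + n : ℕ) : ℝ) + l - 1) := by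
    push_cast
    have h1 : (0 : ℝ) < (l : ℝ) + n - l := by linarith
    have h2 : (0 : ℝ) < (l : ℝ) + n + l - 1 := by linarith
    exact mul_pos h1 h2
  apply le_antisymm
  · obtain ⟨z₀, y₀, h₀, -⟩ := BetaSmall_point l n hl1 hn
    refine csSup_le ⟨_, z₀, y₀, h₀, rfl⟩ ?_
    rintro x ⟨z, y, h, rfl⟩
    have h2 : (0 : ℝ) < ((∑ p, y p : ℕ) : ℝ) := by exact_mod_cast h.2.1
    have h1 : (∑ a, z a) * ((l + n - l) * (l + n + l - 1)) ≤ 2 * (l * ∑ p, y p) := by
      rw [← feasible_sum h, Finset.sum_mul, Finset.mul_sum]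
      refine Finset.sum_le_sum fun a _ => ?_
      rcases Nat.eq_zero_or_pos (z a) with hz | hz
      · simp [hz]
      · have hc : 2 ≤ Multiset.card a.parts := by
          by_contra hc
          have := h.1 a (by omega)
          omega
        have hw : ∀ w ∈ weights a, w ≤ l := by
          intro w hw
          have hw1 : w ∈ ∑ a, z a • weights a := by
            rw [Multiset.mem_sum]
            exact ⟨a, Finset.mem_univ a, Multiset.mem_nsmul.2 ⟨by omega, hw⟩⟩
          rw [h.2.2, Multiset.mem_sum] at hw1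
          obtain ⟨p, -, hp⟩ := hw1
          have hp2 := (Multiset.mem_nsmul.1 hp).2
          have hp3 := Multiset.single_le_sum (fun x _ => Nat.zero_le x) w hp2
          rwa [p.parts_sum] at hp3
        calc z a * ((l + n - l) * (l + n + l - 1)) ≤ z a * (2 * (weights a).sum) :=
              Nat.mul_le_mul_left _ (weights_small hl a hc hw)
          _ = 2 * (z a * (weights a).sum) := by ring
    have h3 : (((∑ a, z a) * ((l + n - l) * (l + n + l - 1)) : ℕ) : ℝ) ≤
        ((2 * (l * ∑ p, y p) : ℕ) : ℝ) := by exact_mod_cast h1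
    have e1 : ((l + n - l : ℕ) : ℝ) = ((l + n : ℕ) : ℝ) - l := by
      rw [Nat.cast_sub (by omega)]
    have e2 : ((l + n + l - 1 : ℕ) : ℝ) = ((l + n : ℕ) : ℝ) + l - 1 := by
      rw [Nat.cast_sub (by omega)]
      push_cast
      ring
    rw [Nat.cast_mul, Nat.cast_mul, e1, e2, Nat.cast_mul, Nat.cast_mul] at h3
    rw [div_le_div_iff₀ h2 hD]
    have e3 : ((2 : ℕ) : ℝ) = 2 := by norm_num
    rw [e3] at h3
    linarith
  · obtain ⟨z₀, y₀, h₀, hz, hy⟩ := BetaSmall_point l n hl1 hn
    have h1 := le_beta (by omega) h₀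
    rw [hz, hy] at h1
    refine le_trans (le_of_eq ?_) h1
    have hC : ((n.choose 2 : ℕ) : ℝ) = n * (n - 1) / 2 := Nat.cast_choose_two ℝ n
    push_cast
    rw [hC]
    have h4 : (0 : ℝ) < l * n + n * (n - 1) / 2 := by
      have h5 : (0 : ℝ) < (l : ℝ) * n := by positivity
      have h6 : (0 : ℝ) ≤ (n : ℝ) * (n - 1) / 2 := by
        have : (0 : ℝ) ≤ (n : ℝ) - 1 := by linarith
        positivity
      linarith
    push_cast at hD
    rw [div_eq_div_iff hD.ne' h4.ne']
    ring

end Pool.Agent.Helper69.QB
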