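import Pool.Agent.Helper69.QB.Defs
import Pool.Agent.Helper53.BN.TF

/-!
Project QB, fixed concurrence: the designs of the assembly.
-/

set_option autoImplicit false

namespace Pool.Agent.Helper69.QB

open Pool.Agent.Helper69.WV Pool.Agent.Helper53.BN

/-- The filling of the hole. -/
theorem hole_fill {k l q g D c n j : ℕ} (hq : 2 ≤ q) (hT : TD (q + 1) n) (hg : NB k l q g)
    (hgD : NB k l q (g + D)) (hn : NB k l n c) (hj : j ≤ n * n) :
    NB k l (q * n) (n * n * g + q * c + j * D) := by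
  have h := tf0 (s := 0) hq (Nat.zero_le _) hT hg hgD hj (fun _ => c) (fun _ => hn)
  refine DC.cast h ?_
  obtain ⟨r, hr⟩ := Nat.exists_eq_add_of_le hj
  rw [hr, Nat.add_sub_cancel_left]
  simp only [Finset.sum_const, Finset.card_univ, Fintype.card_fin, smul_eq_mul]
  ring

/-- The designs of type `(t w)^m (u (m - 1))^1` with one more point. -/
theorem fixed_design {k l m w t u s0 s1 cB ct n0 i : ℕ} (hk : 2 ≤ k) (hm : 2 ≤ m) (hut : u ≤ t)
    (hT : TD (m + 1) t) (hw : TD k w) (h0 : NB k l m s0) (h1 : NB k l m s1) (hs : s0 ≤ s1)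
    (hB : DC k l cB (hol m w (m - 1))) (hi : i ≤ t * (t - u)) (ht : NB k l (t * w + 1) ct)
    (hn : NB k l (u * (m - 1) + 1) n0) :
    NB k l (m * (t * w) + u * (m - 1) + 1)
      (t * (t - u) * (w ^ 2 * s0) + u * t * cB + m * ct + n0 + i * (w ^ 2 * (s1 - s0))) := by
  have h := tf (s := 1) hm hut le_rfl hT (nr_of_nb hk h0 hw) (nr_of_nb hk h1 hw) (Or.inr hB) hi
    (fun _ => ct) (fun _ => ht) n0 hn
  refine DC.cast h ?_
  obtain ⟨r, hr⟩ := Nat.exists_eq_add_of_le hi
  obtain ⟨d, rfl⟩ := Nat.exists_eq_add_of_le hs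
  rw [hr, Nat.add_sub_cancel_left, Nat.add_sub_cancel_left]
  simp only [Finset.sum_const, Finset.card_univ, Fintype.card_fin, smul_eq_mul]
  ring

end Pool.Agent.Helper69.QB
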