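import Pool.Agent.Helper69.QB.Defs

/-!
Project QB, fixed concurrence: the inequalities for the assembly.
-/

set_option autoImplicit false

namespace Pool.Agent.Helper69.QB

open Pool.Agent.Helper69.WV Pool.Agent.Helper53.BN

theorem C2_cast (v : ℕ) : ((C2 v : ℕ) : ℝ) = (v : ℝ) * ((v : ℝ) - 1) / 2 := by
  have h : C2 v = v.choose 2 := (Nat.choose_two_right v).symm
  rw [h]
  exact Nat.cast_choose_two ℝ v

theorem quad (A B c : ℝ) (hA : 0 < A) : ∃ t0 : ℕ, ∀ t : ℕ, t0 ≤ t → B * t + c ≤ A * (t : ℝ) ^ 2 := by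
  obtain ⟨t0, ht0⟩ := exists_nat_ge ((|B| + |c|) / A)
  refine ⟨t0 + 1, fun t ht => ?_⟩
  have h1 : (t0 : ℝ) + 1 ≤ t := by exact_mod_cast ht
  have h2 : |B| + |c| ≤ A * t := by
    rw [div_le_iff₀ hA] at ht0
    nlinarith
  have h3 : (1 : ℝ) ≤ t := by
    have : (0 : ℝ) ≤ t0 := Nat.cast_nonneg _
    linarith
  have h4 : B * t ≤ |B| * t := mul_le_mul_of_nonneg_right (le_abs_self B) (by linarith)
  have h5 : c ≤ |c| * t := by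
    have := le_abs_self c
    nlinarith [abs_nonneg c]
  nlinarith

/-- The upper end of the interval. -/
theorem upper_ineq (m w K U : ℕ) (β' s1 : ℝ) (hβ' : 0 ≤ β')
    (hA : β' * (m : ℝ) ^ 2 * (w : ℝ) ^ 2 / 2 < (w : ℝ) ^ 2 * s1) (hs1 : 0 ≤ s1) :
    ∃ t0 : ℕ, ∀ t : ℕ, t0 ≤ t → ∀ u v : ℕ, u ≤ U → 1 ≤ v → v ≤ m * w * t + K →
      β' * ((C2 v : ℕ) : ℝ) ≤ (t : ℝ) * ((t : ℝ) - u) * ((w : ℝ) ^ 2 * s1) := by
  obtain ⟨t0, ht0⟩ := quad ((w : ℝ) ^ 2 * s1 - β' * (m : ℝ) ^ 2 * (w : ℝ) ^ 2 / 2)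
    (β' * K * m * w + (w : ℝ) ^ 2 * s1 * U) (β' * (K : ℝ) ^ 2 / 2) (by linarith)
  refine ⟨t0, fun t ht u v hu hv hvK => ?_⟩
  have h1 := ht0 t ht
  have hv1 : (1 : ℝ) ≤ v := by exact_mod_cast hv
  have hvK' : (v : ℝ) ≤ m * w * t + K := by exact_mod_cast hvK
  have hu' : (u : ℝ) ≤ U := by exact_mod_cast hu
  have ht' : (0 : ℝ) ≤ t := Nat.cast_nonneg _
  rw [C2_cast]
  have h2 : (v : ℝ) * ((v : ℝ) - 1) / 2 ≤ ((m : ℝ) * w * t + K) ^ 2 / 2 := by nlinarith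
  have h3 : β' * ((v : ℝ) * ((v : ℝ) - 1) / 2) ≤ β' * (((m : ℝ) * w * t + K) ^ 2 / 2) :=
    mul_le_mul_of_nonneg_left h2 hβ'
  have h4 : (0 : ℝ) ≤ (w : ℝ) ^ 2 * s1 := by positivity
  have h5 : (t : ℝ) * ((t : ℝ) - U) * ((w : ℝ) ^ 2 * s1) ≤
      (t : ℝ) * ((t : ℝ) - u) * ((w : ℝ) ^ 2 * s1) := by
    apply mul_le_mul_of_nonneg_right _ h4
    apply mul_le_mul_of_nonneg_left _ ht'
    linarith
  refine h3.trans (le_trans ?_ h5)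
  nlinarith

/-- The lower end of the interval. -/
theorem lower_ineq (m w : ℕ) (α' μ s0 G F : ℝ) (hα' : 0 ≤ α')
    (hA : (w : ℝ) ^ 2 * s0 + (m : ℝ) * μ * (w : ℝ) ^ 2 / 2 < α' * (m : ℝ) ^ 2 * (w : ℝ) ^ 2 / 2) :
    ∃ t0 : ℕ, ∀ t : ℕ, t0 ≤ t → ∀ v : ℕ, m * w * t + 1 ≤ v →
      (w : ℝ) ^ 2 * s0 * (t : ℝ) ^ 2 + G * t +
        (m : ℝ) * (μ * (((w : ℝ) * t + 1) * ((w : ℝ) * t) / 2)) + F ≤ α' * ((C2 v : ℕ) : ℝ) := by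
  obtain ⟨t0, ht0⟩ := quad
    (α' * (m : ℝ) ^ 2 * (w : ℝ) ^ 2 / 2 - ((w : ℝ) ^ 2 * s0 + (m : ℝ) * μ * (w : ℝ) ^ 2 / 2))
    (G + (m : ℝ) * μ * w / 2) F (by linarith)
  refine ⟨t0, fun t ht v hv => ?_⟩
  have h1 := ht0 t ht
  have hv' : (m : ℝ) * w * t + 1 ≤ v := by exact_mod_cast hv
  have ht' : (0 : ℝ) ≤ (m : ℝ) * w * t := by positivity
  rw [C2_cast]
  have h2 : ((m : ℝ) * w * t) ^ 2 / 2 ≤ (v : ℝ) * ((v : ℝ) - 1) / 2 := by nlinarith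
  have h3 : α' * (((m : ℝ) * w * t) ^ 2 / 2) ≤ α' * ((v : ℝ) * ((v : ℝ) - 1) / 2) :=
    mul_le_mul_of_nonneg_left h2 hα'
  refine le_trans ?_ h3
  nlinarith

end Pool.Agent.Helper69.QB
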