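import Pool.Agent.Helper69.QB.Defs

/-!
Project QB, piece TA: two feasible points with consecutive numbers of blocks.
-/

set_option autoImplicit false

namespace Pool.Agent.Helper69.QB

open Pool.Agent.Helper69.WV Pool.Agent.Helper53.BN

private def TsA_one (n : ℕ) : n.Partition where
  parts := Multiset.replicate n 1
  parts_pos := by
    intro i hi
    rw [Multiset.eq_of_mem_replicate hi]
    exact Nat.one_pos
  parts_sum := by simp

private def TsA_two (n : ℕ) : (n + 2).Partition where
  parts := 2 ::ₘ Multiset.replicate n 1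
  parts_pos := by
    intro i hi
    rcases Multiset.mem_cons.1 hi with h | h
    · rw [h]
      exact Nat.two_pos
    · rw [Multiset.eq_of_mem_replicate h]
      exact Nat.one_pos
  parts_sum := by
    rw [Multiset.sum_cons]
    simp
    omega

private theorem TsA_ne (n : ℕ) : TsA_two n ≠ TsA_one (n + 2) := by
  intro h
  have h1 : (2 : ℕ) ∈ (TsA_two n).parts := by
    change (2 : ℕ) ∈ 2 ::ₘ Multiset.replicate n 1
    exact Multiset.mem_cons_self _ _
  rw [h] at h1
  have h2 := Multiset.eq_of_mem_replicate h1
  omega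

private theorem TsA_prod (n m : ℕ) :
    ((Multiset.replicate n 1).powersetCard m).map Multiset.prod =
      Multiset.replicate (n.choose m) (1 : ℕ) := by
  rw [Multiset.eq_replicate]
  constructor
  · simp
  · intro b hb
    rw [Multiset.mem_map] at hb
    obtain ⟨t, ht, rfl⟩ := hb
    have h1 := (Multiset.mem_powersetCard.1 ht).1
    exact Multiset.prod_eq_one fun x hx =>
      Multiset.eq_of_mem_replicate (Multiset.mem_of_le h1 hx)

private theorem TsA_w1 (n : ℕ) : weights (TsA_one n) = Multiset.replicate (n.choose 2) 1 :=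
  TsA_prod n 2

private theorem TsA_w2 (n : ℕ) : weights (TsA_two n) =
    Multiset.replicate (n.choose 2) 1 + Multiset.replicate n 2 := by
  have h0 : (TsA_two n).parts = 2 ::ₘ Multiset.replicate n 1 := rfl
  unfold weights
  rw [h0, Multiset.powersetCard_cons, Multiset.map_add, TsA_prod, Multiset.map_map]
  congr 1
  rw [Multiset.powersetCard_one, Multiset.map_map, Multiset.eq_replicate]
  constructor
  · simp
  · intro b hb
    rw [Multiset.mem_map] at hb
    obtain ⟨t, ht, rfl⟩ := hb
    rw [Multiset.eq_of_mem_replicate ht]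
    simp

/-- `C = k (k - 1) / 2`. The point `z (1^k) = l T`, `y (1^l) = C T`. -/
theorem feasible_one (k l T : ℕ) (hk : 2 ≤ k) (hT : 0 < T) :
    ∃ (z : k.Partition → ℕ) (y : l.Partition → ℕ), Feasible k l z y ∧ ∑ a, z a = l * T ∧
      ∑ p, y p = k * (k - 1) / 2 * T := by
  classical
  have hC : 0 < k * (k - 1) / 2 := by
    rw [← Nat.choose_two_right]
    exact Nat.choose_pos hk
  refine ⟨fun a => if a = TsA_one k then l * T else 0,
    fun p => if p = TsA_one l then k * (k - 1) / 2 * T else 0, ⟨?_, ?_, ?_⟩, ?_, ?_⟩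
  · intro a ha
    dsimp only
    rw [if_neg]
    rintro rfl
    have h1 : Multiset.card (TsA_one k).parts = k := Multiset.card_replicate _ _
    omega
  · rw [Finset.sum_ite_eq' Finset.univ, if_pos (Finset.mem_univ _)]
    exact Nat.mul_pos hC hT
  · simp only [ite_smul, zero_smul]
    rw [Finset.sum_ite_eq' Finset.univ, if_pos (Finset.mem_univ _),
      Finset.sum_ite_eq' Finset.univ, if_pos (Finset.mem_univ _), TsA_w1]
    have h0 : (TsA_one l).parts = Multiset.replicate l 1 := rfl
    rw [h0, Multiset.nsmul_replicate, Multiset.nsmul_replicate, Nat.choose_two_right]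
    congr 1
    ring
  · rw [Finset.sum_ite_eq' Finset.univ, if_pos (Finset.mem_univ _)]
  · rw [Finset.sum_ite_eq' Finset.univ, if_pos (Finset.mem_univ _)]

/-- `C = k (k - 1) / 2`. The point `z (1^k) = l T - (C - 1)`, `z ([2, 1^(k-2)]) = C`,
`y ([2, 1^(l-2)]) = C (k - 2)`, `y (1^l) = C T - C (k - 2)`: the weights of `1^k` are `C` ones, those
of `[2, 1^(k-2)]` are `k - 2` twos and `(k - 2)(k - 3)/2` ones. -/
theorem feasible_two (k l T : ℕ) (hk : 3 ≤ k) (hl : 2 ≤ l) (hT : k * (k - 1) / 2 ≤ T) :
    ∃ (z : k.Partition → ℕ) (y : l.Partition → ℕ), Feasible k l z y ∧ ∑ a, z a = l * T + 1 ∧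
      ∑ p, y p = k * (k - 1) / 2 * T := by
  classical
  obtain ⟨j, rfl⟩ : ∃ j, k = j + 2 := ⟨k - 2, by omega⟩
  obtain ⟨i, rfl⟩ : ∃ i, l = i + 2 := ⟨l - 2, by omega⟩
  rw [← Nat.choose_two_right] at hT ⊢
  have hCj : (j + 2).choose 2 = j.choose 2 + 2 * j + 1 := by
    have h1 : (j + 2).choose 2 = (j + 1).choose 1 + (j + 1).choose 2 := Nat.choose_succ_succ _ _
    have h2 : (j + 1).choose 2 = j.choose 1 + j.choose 2 := Nat.choose_succ_succ _ _
    rw [h1, h2, Nat.choose_one_right, Nat.choose_one_right]
    ring
  generalize hc : j.choose 2 = c at hCj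
  generalize hC : (j + 2).choose 2 = C at hCj hT ⊢
  obtain ⟨S, rfl⟩ : ∃ S, T = S + C := ⟨T - C, by omega⟩
  have sumz : ∀ (n : ℕ) (x y : ℕ) (F : (n + 2).Partition → Multiset ℕ),
      ∑ a, (if a = TsA_one (n + 2) then x else if a = TsA_two n then y else 0) • F a =
        x • F (TsA_one (n + 2)) + y • F (TsA_two n) := by
    intro n x y F
    have h1 : ∀ a : (n + 2).Partition,
        (if a = TsA_one (n + 2) then x else if a = TsA_two n then y else 0) • F a =
        (if a = TsA_one (n + 2) then x • F a else 0) + (if a = TsA_two n then y • F a else 0) := by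
      intro a
      by_cases h2 : a = TsA_one (n + 2)
      · have h3 : a ≠ TsA_two n := fun h => TsA_ne n (h.symm.trans h2)
        rw [if_pos h2, if_pos h2, if_neg h3, add_zero]
      · rw [if_neg h2, if_neg h2, zero_add, ite_smul, zero_smul]
    rw [Finset.sum_congr rfl fun a _ => h1 a, Finset.sum_add_distrib,
      Finset.sum_ite_eq' Finset.univ, if_pos (Finset.mem_univ _),
      Finset.sum_ite_eq' Finset.univ, if_pos (Finset.mem_univ _)]
  have sumn : ∀ (n : ℕ) (x y : ℕ),
      ∑ a : (n + 2).Partition,
        (if a = TsA_one (n + 2) then x else if a = TsA_two n then y else 0) = x + y := by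
    intro n x y
    have h1 : ∀ a : (n + 2).Partition,
        (if a = TsA_one (n + 2) then x else if a = TsA_two n then y else 0) =
        (if a = TsA_one (n + 2) then x else 0) + (if a = TsA_two n then y else 0) := by
      intro a
      by_cases h2 : a = TsA_one (n + 2)
      · have h3 : a ≠ TsA_two n := fun h => TsA_ne n (h.symm.trans h2)
        rw [if_pos h2, if_pos h2, if_neg h3, add_zero]
      · rw [if_neg h2, if_neg h2, zero_add]
    rw [Finset.sum_congr rfl fun a _ => h1 a, Finset.sum_add_distrib,
      Finset.sum_ite_eq' Finset.univ, if_pos (Finset.mem_univ _),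
      Finset.sum_ite_eq' Finset.univ, if_pos (Finset.mem_univ _)]
  have hle : S + C ≤ (i + 2) * (S + C) := Nat.le_mul_of_pos_left _ (by omega)
  have hA : (i + 2) * (S + C) - (c + 2 * j) + c + 2 * j = (i + 2) * (S + C) := by omega
  have hD : S + C - j + j = S + C := by omega
  have h3 : (i + 2) * (S + C) - (c + 2 * j) + c = (S + C - j) * (i + 2) + j * i := by
    apply Nat.add_right_cancel (m := 2 * j)
    calc _ = (i + 2) * (S + C) := hA
      _ = (i + 2) * (S + C - j + j) := by rw [hD]
      _ = _ := by ring
  refine ⟨fun a => if a = TsA_one (j + 2) then (i + 2) * (S + C) - (c + 2 * j)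
      else if a = TsA_two j then C else 0,
    fun p => if p = TsA_one (i + 2) then C * (S + C - j) else if p = TsA_two i then C * j else 0,
    ⟨?_, ?_, ?_⟩, ?_, ?_⟩
  · intro a ha
    dsimp only
    rw [if_neg, if_neg]
    · rintro rfl
      have h1 : Multiset.card (TsA_two j).parts = j + 1 := by
        have h0 : (TsA_two j).parts = 2 ::ₘ Multiset.replicate j 1 := rfl
        rw [h0, Multiset.card_cons, Multiset.card_replicate]
      omega
    · rintro rfl
      have h1 : Multiset.card (TsA_one (j + 2)).parts = j + 2 := Multiset.card_replicate _ _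
      omega
  · rw [sumn]
    have h1 : 0 < C * (S + C - j) := Nat.mul_pos (by omega) (by omega)
    omega
  · refine (sumz j _ _ weights).trans (Eq.trans ?_ (sumz i _ _ fun p => p.parts).symm)
    have h0 : (TsA_one (i + 2)).parts = Multiset.replicate (i + 2) 1 := rfl
    have h0' : (TsA_two i).parts = Multiset.replicate 1 2 + Multiset.replicate i 1 := by
      rw [Multiset.replicate_one, Multiset.singleton_add]
      rfl
    rw [TsA_w1, TsA_w2, hC, hc, h0, h0', nsmul_add, nsmul_add, Multiset.nsmul_replicate,
      Multiset.nsmul_replicate, Multiset.nsmul_replicate, Multiset.nsmul_replicate,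
      Multiset.nsmul_replicate, Multiset.nsmul_replicate, ← add_assoc, ← Multiset.replicate_add,
      add_left_comm (Multiset.replicate (C * (S + C - j) * (i + 2)) 1), ← Multiset.replicate_add,
      add_comm (Multiset.replicate (C * j * 1) 2), mul_one]
    congr 2
    rw [mul_comm _ C, ← mul_add, mul_assoc, mul_assoc, ← mul_add, h3]
  · rw [sumn]
    omega
  · rw [sumn, ← mul_add, hD]

end Pool.Agent.Helper69.QB
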