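import Pool.Agent.Helper69.QB.FeasDesign
import Pool.Agent.Helper69.QB.TsA

/-!
Project QB, piece TS: two designs on the same prime whose numbers of blocks differ by a number
prime to a given number.
-/

set_option autoImplicit false

namespace Pool.Agent.Helper69.QB

open Pool.Agent.Helper69.WV Pool.Agent.Helper53.BN

/-- Proof: `C = k (k - 1) / 2`, `T = C * L`, `e = C T` (a multiple of `L`). Both points above have
`∑ y = e`. `feasible_primes` gives `q0`, `q0'`. `1 + 2 e` is prime to `2 e L` (every prime divisor of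
`2 e L` divides `2 e`), so there is a prime `q > max` of all bounds with
`q = 1 + 2 e mod 2 e L` (`Nat.forall_exists_prime_gt_and_modEq`). Then `(q - 1) / (2 e)` is
`1 mod L`. `g = l T q ((q-1)/(2e))`, `D = q ((q-1)/(2e))` is prime to `L` (`q` is a prime `> L`). -/
theorem two_sizes (k l : ℕ) (hk : 3 ≤ k) (hl : 2 ≤ l) (L B : ℕ) (hL : 0 < L) :
    ∃ q g D : ℕ, q.Prime ∧ B < q ∧ NB k l q g ∧ NB k l q (g + D) ∧ 0 < D ∧ Nat.Coprime D L := by
  set C := k * (k - 1) / 2 with hC
  have hC1 : 0 < C := by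
    have h1 : 1 * 2 ≤ k * (k - 1) := by
      have h2 : 2 ≤ k - 1 := by omega
      exact Nat.mul_le_mul (by omega) h2
    rw [hC]
    omega
  set T := C * L with hT
  have hT1 : 0 < T := Nat.mul_pos hC1 hL
  have hT2 : C ≤ T := Nat.le_mul_of_pos_right C hL
  obtain ⟨z1, y1, f1, hz1, hy1⟩ := feasible_one k l T (by omega) hT1
  obtain ⟨z2, y2, f2, hz2, hy2⟩ := feasible_two k l T hk hl hT2
  obtain ⟨q1, hq1⟩ := feasible_primes f1
  obtain ⟨q2, hq2⟩ := feasible_primes f2
  rw [hy1, hz1] at hq1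
  rw [hy2, hz2] at hq2
  set e := C * T with he
  have he1 : 0 < e := Nat.mul_pos hC1 hT1
  have hLe : L ∣ 2 * e := ⟨2 * C * C, by rw [he, hT]; ring⟩
  have hcop2 : Nat.Coprime (1 + 2 * e) (2 * e) := by
    rw [Nat.coprime_add_self_left]
    exact Nat.coprime_one_left _
  have hcop3 : Nat.Coprime (1 + 2 * e) L := Nat.Coprime.coprime_dvd_right hLe hcop2
  have hcop : Nat.Coprime (1 + 2 * e) (2 * e * L) := Nat.Coprime.mul_right hcop2 hcop3
  have hne : 2 * e * L ≠ 0 := (Nat.mul_pos (Nat.mul_pos (by norm_num) he1) hL).ne'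
  obtain ⟨q, hqgt, hqp, hqm⟩ := Nat.forall_exists_prime_gt_and_modEq
    (B + q1 + q2 + L + (1 + 2 * e)) hne hcop
  have hle : 1 + 2 * e ≤ q := by omega
  obtain ⟨t, ht⟩ : 2 * e * L ∣ q - (1 + 2 * e) := (Nat.modEq_iff_dvd' hle).1 hqm.symm
  have hq : q - 1 = 2 * e * (1 + L * t) := by
    have h1 : q - 1 = q - (1 + 2 * e) + 2 * e := by omega
    rw [h1, ht]
    ring
  have hdiv : (q - 1) / (2 * e) = 1 + L * t := by
    rw [hq]
    exact Nat.mul_div_cancel_left _ (Nat.mul_pos (by norm_num) he1)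
  have hmod : q ≡ 1 [MOD 2 * e] := by
    refine ((Nat.modEq_iff_dvd' hqp.one_lt.le).2 ⟨1 + L * t, hq⟩).symm
  have e1 := hq1 q hqp (by omega) hmod
  have e2 := hq2 q hqp (by omega) hmod
  rw [hdiv] at e1 e2
  refine ⟨q, l * T * (q * (1 + L * t)), q * (1 + L * t), hqp, by omega, e1, ?_, ?_, ?_⟩
  · have h1 : l * T * (q * (1 + L * t)) + q * (1 + L * t) =
        (l * T + 1) * (q * (1 + L * t)) := by ring
    rw [h1]
    exact e2
  · exact Nat.mul_pos hqp.pos (by omega)
  · refine Nat.Coprime.mul_left ?_ ?_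
    · refine (Nat.Prime.coprime_iff_not_dvd hqp).2 fun h => ?_
      have := Nat.le_of_dvd hL h
      omega
    · rw [Nat.coprime_add_mul_left_left]
      exact Nat.coprime_one_left _

end Pool.Agent.Helper69.QB
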