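import Pool.Agent.Helper69.QB.Defs

/-!
Project QB, piece BA: the sum of the weights of a block.
-/

set_option autoImplicit false

namespace Pool.Agent.Helper69.QB

open Pool.Agent.Helper69.WV Pool.Agent.Helper53.BN

private theorem BeA_cons (x : ℕ) (s : Multiset ℕ) :
    (((x ::ₘ s).powersetCard 2).map Multiset.prod).sum =
      ((s.powersetCard 2).map Multiset.prod).sum + x * s.sum := by
  rw [Multiset.powersetCard_cons, Multiset.map_add, Multiset.sum_add, Multiset.powersetCard_one,
    Multiset.map_map, Multiset.map_map]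
  congr 1
  have : (Multiset.map ((Multiset.prod ∘ Multiset.cons x) ∘ fun a => ({a} : Multiset ℕ)) s) =
      s.map (fun a => x * a) := by
    apply Multiset.map_congr rfl
    intro a _
    simp
  rw [this, Multiset.sum_map_mul_left, Multiset.map_id']

private theorem BeA_sq (s : Multiset ℕ) :
    2 * ((s.powersetCard 2).map Multiset.prod).sum + (s.map (fun x => x * x)).sum =
      s.sum * s.sum := by
  induction s using Multiset.induction_on with
  | empty => simp
  | cons x s ih =>
    rw [BeA_cons, Multiset.map_cons, Multiset.sum_cons, Multiset.sum_cons]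
    nlinarith [ih]

/-- Proof: `a.parts = x ::ₘ s` with `s` nonempty; `powersetCard 2 (x ::ₘ s)` contains
`(powersetCard 1 s).map (cons x)`, whose products have the sum `x * s.sum = x * (k - x)`, and
`1 ≤ x ≤ k - 1` gives `x (k - x) ≥ k - 1`. -/
theorem weights_sum_ge {k : ℕ} (a : k.Partition) (h : 2 ≤ Multiset.card a.parts) :
    k - 1 ≤ (weights a).sum := by
  unfold weights
  obtain ⟨x, hx⟩ : ∃ x, x ∈ a.parts := by
    apply Multiset.card_pos_iff_exists_mem.mp
    omega
  obtain ⟨s, hs⟩ := Multiset.exists_cons_of_mem hx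
  have hcard : Multiset.card a.parts = Multiset.card s + 1 := by rw [hs, Multiset.card_cons]
  have hx1 : 0 < x := a.parts_pos hx
  obtain ⟨y, hy⟩ : ∃ y, y ∈ s := by
    apply Multiset.card_pos_iff_exists_mem.mp
    omega
  have hy1 : 0 < y := a.parts_pos (by rw [hs]; exact Multiset.mem_cons_of_mem hy)
  have hys : y ≤ s.sum := Multiset.le_sum_of_mem hy
  have hk : x + s.sum = k := by
    have := a.parts_sum
    rw [hs, Multiset.sum_cons] at this
    exact this
  rw [hs, BeA_cons]
  have h1 : x + s.sum ≤ x * s.sum + 1 := by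
    obtain ⟨u, rfl⟩ : ∃ u, x = u + 1 := ⟨x - 1, by omega⟩
    obtain ⟨v, hv⟩ : ∃ v, s.sum = v + 1 := ⟨s.sum - 1, by omega⟩
    rw [hv]
    nlinarith [Nat.zero_le (u * v)]
  omega

/-- Proof: `(s.sum)^2 = (sum of the squares) + 2 * (sum of the products of pairs)`
(`Multiset` induction), and `x ^ 2 ≥ x`. -/
theorem weights_sum_le {k : ℕ} (a : k.Partition) : (weights a).sum ≤ k * (k - 1) / 2 := by
  unfold weights
  have h := BeA_sq a.parts
  rw [a.parts_sum] at h
  have h2 : a.parts.sum ≤ (a.parts.map (fun x => x * x)).sum := by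
    have : ∀ s : Multiset ℕ, s.sum ≤ (s.map (fun x => x * x)).sum := by
      intro s
      induction s using Multiset.induction_on with
      | empty => simp
      | cons x s ih =>
        rw [Multiset.map_cons, Multiset.sum_cons, Multiset.sum_cons]
        exact Nat.add_le_add (Nat.le_mul_self x) ih
    exact this _
  rw [a.parts_sum] at h2
  have h3 : k * (k - 1) = k * k - k := Nat.mul_sub_one k k
  rw [h3, Nat.le_div_iff_mul_le (by norm_num)]
  omega

end Pool.Agent.Helper69.QB
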