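import Pool.Agent.Helper69.QB.BeA

/-!
Project QB, piece BB: the sums of a feasible point.
-/

set_option autoImplicit false

namespace Pool.Agent.Helper69.QB

open Pool.Agent.Helper69.WV Pool.Agent.Helper53.BN

/-- Take sums in `Feasible`: `∑ z a * (weights a).sum = l * ∑ y p`. -/
theorem feasible_sum {k l : ℕ} {z : k.Partition → ℕ} {y : l.Partition → ℕ}
    (h : Feasible k l z y) : ∑ a, z a * (weights a).sum = l * ∑ p, y p := by
  obtain ⟨_, _, h3⟩ := h
  have h4 := congrArg (Multiset.sumAddMonoidHom : Multiset ℕ →+ ℕ) h3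
  rw [map_sum, map_sum] at h4
  simp only [map_nsmul, Multiset.coe_sumAddMonoidHom, smul_eq_mul] at h4
  rw [h4, Finset.mul_sum]
  exact Finset.sum_congr rfl fun p _ => by rw [p.parts_sum, mul_comm]

theorem feasible_le {k l : ℕ} {z : k.Partition → ℕ} {y : l.Partition → ℕ}
    (h : Feasible k l z y) : (∑ a, z a) * (k - 1) ≤ l * ∑ p, y p := by
  rw [← feasible_sum h, Finset.sum_mul]
  refine Finset.sum_le_sum fun a _ => ?_
  by_cases ha : Multiset.card a.parts ≤ 1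
  · rw [h.1 a ha, zero_mul, zero_mul]
  · exact Nat.mul_le_mul_left _ (weights_sum_ge a (by omega))

theorem bddAbove_feasible (k l : ℕ) (hk : 2 ≤ k) :
    BddAbove {x : ℝ | ∃ (z : k.Partition → ℕ) (y : l.Partition → ℕ), Feasible k l z y ∧
      x = ((∑ a, z a : ℕ) : ℝ) / ((∑ p, y p : ℕ) : ℝ)} := by
  refine ⟨(l : ℝ), ?_⟩
  rintro x ⟨z, y, h, rfl⟩
  have h1 := feasible_le h
  have h2 : 0 < ∑ p, y p := h.2.1
  have h3 : ∑ a, z a ≤ l * ∑ p, y p :=
    (Nat.le_mul_of_pos_right _ (by omega : 0 < k - 1)).trans h1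
  have h4 : (0 : ℝ) < ((∑ p, y p : ℕ) : ℝ) := by exact_mod_cast h2
  rw [div_le_iff₀ h4]
  exact_mod_cast h3

theorem le_beta {k l : ℕ} (hk : 2 ≤ k) {z : k.Partition → ℕ} {y : l.Partition → ℕ}
    (h : Feasible k l z y) : ((∑ a, z a : ℕ) : ℝ) / ((∑ p, y p : ℕ) : ℝ) ≤ beta k l := by
  exact le_csSup (bddAbove_feasible k l hk) ⟨z, y, h, rfl⟩

end Pool.Agent.Helper69.QB
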