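import Pool.Agent.Helper69.QB.Defs

/-!
Project QB, piece SA: weights of blocks for small concurrences.
-/

set_option autoImplicit false

namespace Pool.Agent.Helper69.QB

open Pool.Agent.Helper69.WV Pool.Agent.Helper53.BN

private theorem BsA_one (x : ℕ) (s : Multiset ℕ) :
    (((s.powersetCard 1).map (Multiset.cons x)).map Multiset.prod).sum = x * s.sum := by
  induction s using Multiset.induction_on with
  | empty => simp
  | cons y s ih =>
    rw [Multiset.powersetCard_cons 0, Multiset.map_add, Multiset.map_add, Multiset.sum_add, ih]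
    simp
    ring

private theorem BsA_two (s : Multiset ℕ) :
    2 * ((s.powersetCard 2).map Multiset.prod).sum + (s.map (fun x => x ^ 2)).sum = s.sum ^ 2 := by
  induction s using Multiset.induction_on with
  | empty => simp
  | cons y s ih =>
    rw [Multiset.powersetCard_cons 1, Multiset.map_add, Multiset.sum_add, BsA_one,
      Multiset.map_cons, Multiset.sum_cons, Multiset.sum_cons]
    nlinarith [ih]

/-- Proof: at most one part is `≥ 2` (two such parts have the product `≥ 4 > l`), and it is `≤ l`
(its product with another part). So the parts are `r, 1, …, 1` with `1 ≤ r ≤ l`, and the sum of the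
weights is `(k - r) r + (k - r)(k - r - 1)/2 = (k - r)(k + r - 1)/2 ≥ (k - l)(k + l - 1)/2`. -/
theorem weights_small {k l : ℕ} (hl : l ≤ 3) (a : k.Partition) (h2 : 2 ≤ Multiset.card a.parts)
    (hw : ∀ w ∈ weights a, w ≤ l) : (k - l) * (k + l - 1) ≤ 2 * (weights a).sum := by
  have hne : a.parts.toFinset.Nonempty := by
    rw [Multiset.toFinset_nonempty]
    rintro h
    rw [h] at h2
    simp at h2
  obtain ⟨r, hr, hmax⟩ := Finset.exists_max_image a.parts.toFinset id hne
  rw [Multiset.mem_toFinset] at hr
  obtain ⟨t, ht⟩ := Multiset.exists_cons_of_mem hr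
  have hr1 : 1 ≤ r := a.parts_pos hr
  have hpair : ∀ x ∈ t, r * x ≤ l := by
    intro x hx
    obtain ⟨u, hu⟩ := Multiset.exists_cons_of_mem hx
    apply hw
    unfold weights
    rw [Multiset.mem_map]
    refine ⟨r ::ₘ x ::ₘ 0, ?_, by simp⟩
    rw [Multiset.mem_powersetCard]
    refine ⟨?_, by simp⟩
    rw [ht, hu]
    exact Multiset.cons_le_cons _ (Multiset.cons_le_cons _ (Multiset.zero_le _))
  have hone : ∀ x ∈ t, x = 1 := by
    intro x hx
    have hxa : x ∈ a.parts := by rw [ht]; exact Multiset.mem_cons_of_mem hx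
    have h1 : 1 ≤ x := a.parts_pos hxa
    have h3 : x ≤ r := hmax x (Multiset.mem_toFinset.2 hxa)
    have h4 := hpair x hx
    by_contra hcon
    have h5 : 2 ≤ x := by omega
    nlinarith
  have hrep : t = Multiset.replicate (Multiset.card t) 1 := Multiset.eq_replicate_card.2 hone
  have hm : 1 ≤ Multiset.card t := by
    rw [ht, Multiset.card_cons] at h2
    omega
  generalize hmd : Multiset.card t = m at hrep hm
  have hrl : r ≤ l := by
    have h1 : (1 : ℕ) ∈ t := by
      rw [hrep]
      exact Multiset.mem_replicate.2 ⟨by omega, rfl⟩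
    simpa using hpair 1 h1
  have hk : r + m = k := by
    have := a.parts_sum
    rw [ht, hrep] at this
    simpa using this
  have hs := BsA_two a.parts
  have hq : (a.parts.map (fun x => x ^ 2)).sum = r ^ 2 + m := by
    rw [ht, hrep]
    simp
  rw [a.parts_sum, hq] at hs
  change 2 * (weights a).sum + (r ^ 2 + m) = k ^ 2 at hs
  rcases Nat.le_total k l with hkl | hkl
  · rw [Nat.sub_eq_zero_of_le hkl]
    simp
  · obtain ⟨d, rfl⟩ := Nat.exists_eq_add_of_le hkl
    obtain ⟨e, rfl⟩ := Nat.exists_eq_add_of_le hrl
    have e1 : r + e + d - (r + e) = d := by omega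
    obtain ⟨r', rfl⟩ := Nat.exists_eq_add_of_le hr1
    have e2 : 1 + r' + e + d + (1 + r' + e) - 1 = 2 * r' + 2 * e + d + 1 := by omega
    rw [e1, e2]
    have e3 : m = e + d := by omega
    subst e3
    nlinarith [Nat.zero_le (e * e), Nat.zero_le (r' * e)]

end Pool.Agent.Helper69.QB
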