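import Pool.Agent.Helper69.QB.Defs

/-!
Project QB, piece CG: the cyclotomic construction for arbitrary block patterns.

`cycGen`: `A` is the set of base blocks, `f a : Fin k → Fin k` the letters of the base block `a` at
its `k` positions, `c a x y` the class (one of `e`) of the pair of letters `x`, `y` of the base
block `a`. If every class gets exactly `l` pairs of positions with different letters, then for all
large primes `q = 1 mod 2 e` there is a `VB(q,k,l)` design with `|A| q (q - 1) / (2 e)` blocks.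

Proof (compare `Helper69/WV/Cyclo.lean`; its private lemmas `cyclo_subgroup`, `cyclo_half`,
`cyclo_count` are needed and have to be copied, with new names). `greedy` (file
`Helper69/WV/Greedy.lean`, `theorem greedy : Greedy`) for `k` and `e` gives `q1`; let `q0 = max q1 3`.
Let `H` be the subgroup of index `e` with `-1 ∈ H`, and choose a bijection
`σ : Fin e ≃ (ZMod q)ˣ ⧸ H`. `Greedy` with the classes `σ (c a x y)` gives `X a : Fin k → ZMod q`
with `X a y - X a x` in the coset `σ (c a x y)` for `x < y`; since `-1 ∈ H` and `c` is symmetric,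
this holds for all `x ≠ y` (`-u` lies in the same coset as `u`). The design: index set
`A × {u // u ∈ H ∧ 2 * u.val < q} × ZMod q`, block `i ↦ u * X a (f a i) + g`.
Not constant: `X a` is injective. Concurrence of `x ≠ y`: `cyclo_count` (with `X a (f a ·)` in
place of `X`) gives the number of `(a, i, j)` with `i < j` and `X a (f a j) - X a (f a i)` in the
coset of `y - x`; if `f a i = f a j` the difference is `0`, not a unit; otherwise it is in the coset
`σ (c a (f a i) (f a j))`. So the number is the one of hypothesis `hl`.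
Number of blocks: `|H| = (q - 1) / e` (`Subgroup.card_mul_index`), the half system has
`(q - 1) / (2 e)` elements: `u ↦ -u` is a bijection of it onto the rest of `H` (`cyclo_half`).
Finally `DC_id_iff` with `Nat.card (ZMod q) = q`.
-/

set_option autoImplicit false

namespace Pool.Agent.Helper69.QB

open Pool.Agent.Helper69.WV Pool.Agent.Helper53.BN

private theorem CycGen_subgroup (q e : ℕ) (hq : q.Prime) (h : q ≡ 1 [MOD 2 * e]) :
    ∃ H : Subgroup (ZMod q)ˣ, H.index = e ∧ (-1 : (ZMod q)ˣ) ∈ H := by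
  have : Fact q.Prime := ⟨hq⟩
  have hd : 2 * e ∣ q - 1 := (Nat.modEq_iff_dvd' hq.one_lt.le).1 h.symm
  refine ⟨(powMonoidHom e : (ZMod q)ˣ →* (ZMod q)ˣ).range, ?_, ?_⟩
  · rw [IsCyclic.index_powMonoidHom_range]
    rw [Nat.card_eq_fintype_card, ZMod.card_units]
    exact Nat.gcd_eq_right ((dvd_mul_left e 2).trans hd)
  · obtain ⟨g, hg⟩ := IsCyclic.exists_generator (α := (ZMod q)ˣ)
    obtain ⟨j, hj⟩ := hg (-1)
    change g ^ j = -1 at hj
    have h1 : g ^ (2 * j) = 1 := by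
      rw [mul_comm, zpow_mul, hj]
      norm_num
    have h2 : ((q - 1 : ℕ) : ℤ) ∣ 2 * j := by
      have := orderOf_dvd_iff_zpow_eq_one.2 h1
      rwa [orderOf_eq_card_of_forall_mem_zpowers hg, Nat.card_eq_fintype_card,
        ZMod.card_units] at this
    have h3 : ((2 * e : ℕ) : ℤ) ∣ 2 * j := (Int.natCast_dvd_natCast.2 hd).trans h2
    obtain ⟨m, hm⟩ := h3
    push_cast at hm
    have h4 : j = e * m := by linarith
    refine ⟨g ^ m, ?_⟩
    rw [powMonoidHom_apply, ← zpow_natCast, ← zpow_mul, ← hj, h4, mul_comm]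

private theorem CycGen_half (q : ℕ) [Fact q.Prime] (hodd : ¬ 2 ∣ q) (u : (ZMod q)ˣ) :
    (2 * (u : ZMod q).val < q) ↔ ¬ (2 * ((-u : (ZMod q)ˣ) : ZMod q).val < q) := by
  have h0 : (u : ZMod q) ≠ 0 := u.ne_zero
  rw [Units.val_neg, ZMod.neg_val, if_neg h0]
  have h1 := ZMod.val_lt (u : ZMod q)
  omega

private theorem CycGen_count (q : ℕ) [Fact q.Prime] (hodd : ¬ 2 ∣ q) (H : Subgroup (ZMod q)ˣ)
    (hH : (-1 : (ZMod q)ˣ) ∈ H) (B : Type) (k : ℕ) (X : B → Fin k → ZMod q) (x y : ZMod q)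
    (δ : (ZMod q)ˣ) (hδ : (δ : ZMod q) = y - x) :
    cc (fun (b : B × {u : (ZMod q)ˣ // u ∈ H ∧ 2 * (u : ZMod q).val < q} × ZMod q) (i : Fin k) =>
      ((b.2.1.1 : (ZMod q)ˣ) : ZMod q) * X b.1 i + b.2.2) x y =
    Nat.card {p : B × Fin k × Fin k // p.2.1 < p.2.2 ∧ ∃ u : (ZMod q)ˣ,
      (u : (ZMod q)ˣ ⧸ H) = (δ : (ZMod q)ˣ ⧸ H) ∧ X p.1 p.2.2 - X p.1 p.2.1 = u} := by
  classical
  have hneg : ∀ u : (ZMod q)ˣ, u ∈ H → -u ∈ H := by
    intro u hu
    have := H.mul_mem hH hu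
    simpa using this
  unfold cc
  have key : ∀ (h : (ZMod q)ˣ) (g a b : ZMod q), h ∈ H → (h : ZMod q) * a + g = x →
      (h : ZMod q) * b + g = y → (h : ZMod q) * (b - a) = δ := by
    intro h g a b _ h1 h2
    rw [hδ, ← h1, ← h2]; ring
  refine Nat.card_congr (Equiv.ofBijective (fun p => if hij : p.1.2.1 < p.1.2.2 then
      ⟨(p.1.1.1, p.1.2.1, p.1.2.2), hij, (p.1.1.2.1.1)⁻¹ * δ, ?_, ?_⟩ else
      ⟨(p.1.1.1, p.1.2.2, p.1.2.1), ?_, -((p.1.1.2.1.1)⁻¹ * δ), ?_, ?_⟩) ⟨?_, ?_⟩)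
  · rw [QuotientGroup.eq]
    have := p.1.1.2.1.2.1
    have h1 : (((p.1.1.2.1.1 : (ZMod q)ˣ))⁻¹ * δ)⁻¹ * δ = p.1.1.2.1.1 := by
      rw [mul_inv_rev, inv_inv]
      rw [mul_assoc, mul_comm, mul_assoc, mul_inv_cancel, mul_one]
    rw [h1]; exact this
  · have := key p.1.1.2.1.1 _ _ _ p.1.1.2.1.2.1 p.2.1 p.2.2
    rw [Units.val_mul, ← this, ← mul_assoc, ← Units.val_mul, inv_mul_cancel, Units.val_one, one_mul]
  · have hne : p.1.2.1 ≠ p.1.2.2 := by
      intro he
      have := key p.1.1.2.1.1 _ _ _ p.1.1.2.1.2.1 p.2.1 p.2.2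
      rw [he, sub_self, mul_zero] at this
      exact δ.ne_zero this.symm
    exact lt_of_le_of_ne (not_lt.1 hij) (Ne.symm hne)
  · rw [QuotientGroup.eq]
    have := hneg _ p.1.1.2.1.2.1
    have h1 : (-(((p.1.1.2.1.1 : (ZMod q)ˣ))⁻¹ * δ))⁻¹ * δ = -p.1.1.2.1.1 := by
      rw [inv_neg, mul_inv_rev, inv_inv, neg_mul]
      rw [mul_assoc, mul_comm, mul_assoc, mul_inv_cancel, mul_one]
    rw [h1]; exact this
  · have := key p.1.1.2.1.1 _ _ _ p.1.1.2.1.2.1 p.2.1 p.2.2
    rw [Units.val_neg, Units.val_mul, ← this, ← mul_assoc, ← Units.val_mul, inv_mul_cancel,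
      Units.val_one, one_mul]
    ring
  · rintro ⟨⟨⟨b, ⟨h, hh⟩, g⟩, i, j⟩, h1, h2⟩ ⟨⟨⟨b', ⟨h', hh'⟩, g'⟩, i', j'⟩, h1', h2'⟩ heq
    have e1 := key h g _ _ hh.1 h1 h2
    have e2 := key h' g' _ _ hh'.1 h1' h2'
    simp only at h1 h2 h1' h2' heq
    by_cases hij : i < j <;> by_cases hij' : i' < j'
    · rw [dif_pos hij, dif_pos hij'] at heq
      simp only [Subtype.mk.injEq, Prod.mk.injEq] at heq
      obtain ⟨rfl, rfl, rfl⟩ := heq
      have hd : X b j - X b i ≠ 0 := by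
        intro h0
        rw [h0, mul_zero] at e1
        exact δ.ne_zero e1.symm
      have hh0 : (h : ZMod q) = h' := mul_right_cancel₀ hd (e1.trans e2.symm)
      have hh1 : h = h' := Units.ext hh0
      subst hh1
      have : g = g' := by
        have := h1.trans h1'.symm
        exact add_left_cancel this
      subst this
      rfl
    · rw [dif_pos hij, dif_neg hij'] at heq
      simp only [Subtype.mk.injEq, Prod.mk.injEq] at heq
      obtain ⟨rfl, rfl, rfl⟩ := heq
      exfalso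
      have hd : X b j - X b i ≠ 0 := by
        intro h0
        rw [h0, mul_zero] at e1
        exact δ.ne_zero e1.symm
      have e3 : ((-h' : (ZMod q)ˣ) : ZMod q) * (X b j - X b i) = δ := by
        rw [← e2, Units.val_neg]; ring
      have hh1 : h = -h' := Units.ext (mul_right_cancel₀ hd (e1.trans e3.symm))
      exact (CycGen_half q hodd h').1 hh'.2 (hh1 ▸ hh.2)
    · rw [dif_neg hij, dif_pos hij'] at heq
      simp only [Subtype.mk.injEq, Prod.mk.injEq] at heq
      obtain ⟨rfl, rfl, rfl⟩ := heq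
      exfalso
      have hd : X b j - X b i ≠ 0 := by
        intro h0
        rw [h0, mul_zero] at e1
        exact δ.ne_zero e1.symm
      have e3 : ((-h' : (ZMod q)ˣ) : ZMod q) * (X b j - X b i) = δ := by
        rw [← e2, Units.val_neg]; ring
      have hh1 : h = -h' := Units.ext (mul_right_cancel₀ hd (e1.trans e3.symm))
      exact (CycGen_half q hodd h').1 hh'.2 (hh1 ▸ hh.2)
    · rw [dif_neg hij, dif_neg hij'] at heq
      simp only [Subtype.mk.injEq, Prod.mk.injEq] at heq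
      obtain ⟨rfl, rfl, rfl⟩ := heq
      have hd : X b j - X b i ≠ 0 := by
        intro h0
        rw [h0, mul_zero] at e1
        exact δ.ne_zero e1.symm
      have hh0 : (h : ZMod q) = h' := mul_right_cancel₀ hd (e1.trans e2.symm)
      have hh1 : h = h' := Units.ext hh0
      subst hh1
      have : g = g' := by
        have := h1.trans h1'.symm
        exact add_left_cancel this
      subst this
      rfl
  · rintro ⟨⟨b, i, j⟩, hij, u, hu, hXu⟩
    simp only at hij hXu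
    have hmem : u⁻¹ * δ ∈ H := QuotientGroup.eq.1 hu
    have hval : ((u⁻¹ * δ : (ZMod q)ˣ) : ZMod q) * u = δ := by
      rw [← Units.val_mul, mul_comm u⁻¹, mul_assoc, inv_mul_cancel, mul_one]
    by_cases hS : 2 * ((u⁻¹ * δ : (ZMod q)ˣ) : ZMod q).val < q
    · refine ⟨⟨⟨⟨b, ⟨u⁻¹ * δ, hmem, hS⟩, x - ((u⁻¹ * δ : (ZMod q)ˣ) : ZMod q) * X b i⟩, i, j⟩,
        ?_, ?_⟩, ?_⟩
      · simp only; ring
      · simp only
        have : ((u⁻¹ * δ : (ZMod q)ˣ) : ZMod q) * X b j +
          (x - ((u⁻¹ * δ : (ZMod q)ˣ) : ZMod q) * X b i) =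
          ((u⁻¹ * δ : (ZMod q)ˣ) : ZMod q) * (X b j - X b i) + x := by ring
        rw [this, hXu, hval, hδ]; ring
      · simp only [hij, dif_pos]
    · have hS' : 2 * ((-(u⁻¹ * δ) : (ZMod q)ˣ) : ZMod q).val < q := by
        by_contra hcon
        exact hS ((CycGen_half q hodd _).2 hcon)
      refine ⟨⟨⟨⟨b, ⟨-(u⁻¹ * δ), hneg _ hmem, hS'⟩,
        x - ((-(u⁻¹ * δ) : (ZMod q)ˣ) : ZMod q) * X b j⟩, j, i⟩, ?_, ?_⟩, ?_⟩
      · simp only; ring
      · simp only
        have : ((-(u⁻¹ * δ) : (ZMod q)ˣ) : ZMod q) * X b i +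
          (x - ((-(u⁻¹ * δ) : (ZMod q)ˣ) : ZMod q) * X b j) =
          ((u⁻¹ * δ : (ZMod q)ˣ) : ZMod q) * (X b j - X b i) + x := by
          rw [Units.val_neg]; ring
        rw [this, hXu, hval, hδ]; ring
      · simp only [not_lt.2 hij.le, dif_neg, not_false_eq_true]

private theorem CycGen_iff {q : ℕ} {H : Subgroup (ZMod q)ˣ} {c κ : (ZMod q)ˣ ⧸ H} {d : ZMod q}
    (h : ∃ u : (ZMod q)ˣ, (u : (ZMod q)ˣ ⧸ H) = c ∧ d = u) :
    (∃ u : (ZMod q)ˣ, (u : (ZMod q)ˣ ⧸ H) = κ ∧ d = u) ↔ c = κ := by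
  obtain ⟨u, hu, hd⟩ := h
  constructor
  · rintro ⟨v, hv, hdv⟩
    have : u = v := Units.ext (hd.symm.trans hdv)
    rw [← hu, this, hv]
  · intro hc
    exact ⟨u, hu.trans hc, hd⟩

private theorem CycGen_card (q e : ℕ) [Fact q.Prime] (hodd : ¬ 2 ∣ q) (he : 0 < e)
    (hmod : q ≡ 1 [MOD 2 * e]) (H : Subgroup (ZMod q)ˣ) (hHe : H.index = e)
    (hH : (-1 : (ZMod q)ˣ) ∈ H) :
    Nat.card {u : (ZMod q)ˣ // u ∈ H ∧ 2 * (u : ZMod q).val < q} = (q - 1) / (2 * e) := by
  classical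
  have hneg : ∀ u : (ZMod q)ˣ, u ∈ H → -u ∈ H := by
    intro u hu
    have := H.mul_mem hH hu
    simpa using this
  have hq : q.Prime := Fact.out
  obtain ⟨m, hm⟩ := (Nat.modEq_iff_dvd' hq.one_lt.le).1 hmod.symm
  have h1 := H.card_mul_index
  rw [hHe, Nat.card_eq_fintype_card (α := (ZMod q)ˣ), ZMod.card_units, hm] at h1
  have h2 : Nat.card H = 2 * m := by
    have : Nat.card H * e = (2 * m) * e := by rw [h1]; ring
    exact Nat.eq_of_mul_eq_mul_right he this
  rw [hm, Nat.mul_div_cancel_left _ (by positivity)]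
  have h3 : Nat.card H = ((Finset.univ : Finset (ZMod q)ˣ).filter fun u => u ∈ H).card := by
    rw [Nat.card_eq_fintype_card]
    exact Fintype.card_subtype _
  have h4 : Nat.card {u : (ZMod q)ˣ // u ∈ H ∧ 2 * (u : ZMod q).val < q} =
      ((Finset.univ : Finset (ZMod q)ˣ).filter fun u => u ∈ H ∧ 2 * (u : ZMod q).val < q).card := by
    rw [Nat.card_eq_fintype_card]
    exact Fintype.card_subtype _
  have h5 : ((Finset.univ : Finset (ZMod q)ˣ).filter fun u => u ∈ H ∧
        2 * (u : ZMod q).val < q).card =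
      ((Finset.univ : Finset (ZMod q)ˣ).filter fun u => u ∈ H ∧
        ¬ 2 * (u : ZMod q).val < q).card := by
    refine Finset.card_bij (fun u _ => -u) ?_ ?_ ?_
    · intro u hu
      rw [Finset.mem_filter] at hu ⊢
      exact ⟨Finset.mem_univ _, hneg u hu.2.1, (CycGen_half q hodd u).1 hu.2.2⟩
    · intro u _ v _ h
      exact neg_injective h
    · intro u hu
      rw [Finset.mem_filter] at hu
      refine ⟨-u, ?_, neg_neg u⟩
      rw [Finset.mem_filter]
      refine ⟨Finset.mem_univ _, hneg u hu.2.1, ?_⟩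
      by_contra hcon
      exact hu.2.2 ((CycGen_half q hodd u).2 hcon)
  have h6 := Finset.card_filter_add_card_filter_not
    (s := (Finset.univ : Finset (ZMod q)ˣ).filter fun u => u ∈ H)
    (fun u : (ZMod q)ˣ => 2 * (u : ZMod q).val < q)
  rw [Finset.filter_filter, Finset.filter_filter, ← h3, h2, ← h5, ← h4] at h6
  omega

theorem cycGen (k l e : ℕ) (he : 0 < e) (A : Type) [Fintype A] (f : A → Fin k → Fin k)
    (hf : ∀ a, ∃ i j, f a i ≠ f a j) (c : A → Fin k → Fin k → Fin e)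
    (hsym : ∀ a x y, c a x y = c a y x)
    (hl : ∀ κ : Fin e, Nat.card {p : A × Fin k × Fin k // p.2.1 < p.2.2 ∧
      f p.1 p.2.1 ≠ f p.1 p.2.2 ∧ c p.1 (f p.1 p.2.1) (f p.1 p.2.2) = κ} = l) :
    ∃ q0, ∀ q : ℕ, q.Prime → q0 ≤ q → q ≡ 1 [MOD 2 * e] →
      NB k l q (Fintype.card A * (q * ((q - 1) / (2 * e)))) := by
  classical
  obtain ⟨q1, hq1⟩ := greedy k e he
  refine ⟨max q1 3, fun q hq hqq hmod => ?_⟩
  have hfact : Fact q.Prime := ⟨hq⟩
  have hqq1 : q1 ≤ q := (le_max_left _ _).trans hqq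
  have hqq3 : 3 ≤ q := (le_max_right _ _).trans hqq
  obtain ⟨H, hHe, hHn⟩ := CycGen_subgroup q e hq hmod
  have hodd : ¬ 2 ∣ q := by
    intro h2
    have := (Nat.prime_dvd_prime_iff_eq Nat.prime_two hq).1 h2
    omega
  have hcardF : Nat.card (ZMod q) = q := Nat.card_zmod q
  have : Fintype ((ZMod q)ˣ ⧸ H) := Fintype.ofFinite _
  have hQ : Fintype.card ((ZMod q)ˣ ⧸ H) = e := by
    rw [← Nat.card_eq_fintype_card]; exact hHe
  let σ : Fin e ≃ (ZMod q)ˣ ⧸ H := (Fintype.equivFinOfCardEq hQ).symm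
  choose X hX using fun a => hq1 (ZMod q) inferInstance inferInstance H hHe
    (by rw [hcardF]; exact hqq1) (fun x y => σ (c a x y))
  have hX2 : ∀ a x y, x ≠ y → ∃ u : (ZMod q)ˣ, (u : (ZMod q)ˣ ⧸ H) = σ (c a x y) ∧
      X a y - X a x = u := by
    intro a x y hxy
    rcases lt_or_gt_of_ne hxy with h | h
    · exact hX a x y h
    · obtain ⟨u, hu1, hu2⟩ := hX a y x h
      refine ⟨-u, ?_, ?_⟩
      · rw [hsym a x y, ← hu1, QuotientGroup.eq]
        have : (-u)⁻¹ * u = -1 := by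
          rw [inv_neg, neg_mul, inv_mul_cancel]
        rw [this]
        exact hHn
      · rw [Units.val_neg, ← hu2, neg_sub]
  have key : DC k l (Fintype.card A * (q * ((q - 1) / (2 * e)))) (id : ZMod q → ZMod q) := by
    refine ⟨A × {u : (ZMod q)ˣ // u ∈ H ∧ 2 * (u : ZMod q).val < q} × ZMod q,
      inferInstance, fun b i => ((b.2.1.1 : (ZMod q)ˣ) : ZMod q) * X b.1 (f b.1 i) + b.2.2,
      ?_, ?_, ?_, ?_⟩
    · intro b
      obtain ⟨i, j, hij⟩ := hf b.1
      refine ⟨i, j, fun h => ?_⟩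
      have h1 := mul_left_cancel₀ (Units.ne_zero _) (add_right_cancel h)
      obtain ⟨u, -, hu⟩ := hX2 b.1 _ _ hij
      rw [h1, sub_self] at hu
      exact u.ne_zero hu.symm
    · intro x y hxy
      have hδ0 : y - x ≠ 0 := sub_ne_zero.2 (Ne.symm hxy)
      rw [CycGen_count q hodd H hHn A k (fun a i => X a (f a i)) x y (Units.mk0 (y - x) hδ0)
        (Units.val_mk0 hδ0)]
      generalize ((Units.mk0 (y - x) hδ0 : (ZMod q)ˣ) : (ZMod q)ˣ ⧸ H) = κ
      rw [← hl (σ.symm κ)]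
      refine Nat.card_congr (Equiv.subtypeEquivRight ?_)
      rintro ⟨a, i, j⟩
      simp only
      refine and_congr_right fun _ => ?_
      by_cases h : f a i = f a j
      · rw [h, sub_self]
        refine ⟨?_, fun h' => absurd rfl h'.1⟩
        rintro ⟨u, -, hu⟩
        exact absurd hu.symm u.ne_zero
      · rw [CycGen_iff (κ := κ) (hX2 a _ _ h)]
        rw [Equiv.eq_symm_apply]
        exact ⟨fun h' => ⟨h, h'⟩, fun h' => h'.2⟩
    · intro x y hxy h
      exact absurd h hxy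
    · rw [Nat.card_prod, Nat.card_prod, CycGen_card q e hodd he hmod H hHe hHn, hcardF,
        Nat.card_eq_fintype_card, mul_comm ((q - 1) / (2 * e)) q]
  have := DC_id_iff.1 key
  rwa [hcardF] at this

end Pool.Agent.Helper69.QB
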