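import Pool.Agent.Helper53.BN.Defs

/-!
Project QB (MP_e0c419_co, Q2, fixed concurrence): the linear program for the largest number of
blocks. The designs are those of `Helper53/BN/Defs.lean` (`DC`, `NB`, `NR`, `hol`).
-/

set_option autoImplicit false

namespace Pool.Agent.Helper69.QB

open Pool.Agent.Helper69.WV Pool.Agent.Helper53.BN

/-- The weights of a block in which the points have the multiplicities `a.parts`: the products of
the multiplicities of two different points. -/
def weights {n : ℕ} (a : n.Partition) : Multiset ℕ := (a.parts.powersetCard 2).map Multiset.prod

/-- The integral feasible points of the linear program: `z a` blocks with multiplicities `a` (at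
least two different points), `y p` pairs of points whose concurrence is distributed over the blocks
according to the partition `p` of `l`; every weight is used by the pairs as often as it occurs in
the blocks. -/
def Feasible (k l : ℕ) (z : k.Partition → ℕ) (y : l.Partition → ℕ) : Prop :=
  (∀ a : k.Partition, Multiset.card a.parts ≤ 1 → z a = 0) ∧ 0 < ∑ p, y p ∧
    ∑ a, z a • weights a = ∑ p : l.Partition, y p • p.parts

/-- The largest number of blocks per pair of points: the optimum of the linear program. -/
noncomputable def beta (k l : ℕ) : ℝ :=
  sSup {x : ℝ | ∃ (z : k.Partition → ℕ) (y : l.Partition → ℕ), Feasible k l z y ∧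
    x = ((∑ a, z a : ℕ) : ℝ) / ((∑ p, y p : ℕ) : ℝ)}

end Pool.Agent.Helper69.QB
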