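import Pool.Agent.Helper69.QB.Defs

/-!
Project QB, piece EM: bijections between families with the same multiset of values.
-/

set_option autoImplicit false

namespace Pool.Agent.Helper69.QB

open Pool.Agent.Helper69.WV Pool.Agent.Helper53.BN

/-- Two families with the same multiset of values are related by a bijection of the index sets.
Proof: for every value `w` the fibres have the same cardinality (`Multiset.count_map`), so they are
equivalent; put these equivalences together (`Equiv.sigmaFiberEquiv`, `Equiv.sigmaCongrRight`). -/
theorem exists_equiv_of_map {E T : Type} [Fintype E] [Fintype T] (ω : E → ℕ) (τ : T → ℕ)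
    (h : Finset.univ.val.map ω = Finset.univ.val.map τ) : ∃ φ : E ≃ T, ∀ x, τ (φ x) = ω x := by
  classical
  have hcard : ∀ w : ℕ, Fintype.card {x : E // ω x = w} = Fintype.card {y : T // τ y = w} := by
    intro w
    have hc := congrArg (Multiset.count w) h
    rw [Multiset.count_map, Multiset.count_map] at hc
    rw [Fintype.card_subtype, Fintype.card_subtype]
    have e1 : ∀ (A : Type) [Fintype A] (g : A → ℕ),
        (Finset.univ.filter (fun x : A => g x = w)).card =
          Multiset.card (Multiset.filter (fun a => w = g a) (Finset.univ : Finset A).val) := by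
      intro A _ g
      rw [Finset.card_def, Finset.filter_val]
      congr 1
      exact Multiset.filter_congr fun x _ => eq_comm
    rw [e1 E ω, e1 T τ]
    exact hc
  let F : ∀ w : ℕ, {x : E // ω x = w} ≃ {y : T // τ y = w} := fun w =>
    Fintype.equivOfCardEq (hcard w)
  refine ⟨(Equiv.sigmaFiberEquiv ω).symm.trans
    ((Equiv.sigmaCongrRight F).trans (Equiv.sigmaFiberEquiv τ)), fun x => ?_⟩
  exact (F (ω x) ⟨x, rfl⟩).2

end Pool.Agent.Helper69.QB
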