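import Pool.Agent.Helper69.QB.Defs

/-!
Project QB, piece WB: words with given numbers of occurrences of the letters.
-/

set_option autoImplicit false

namespace Pool.Agent.Helper69.QB

open Pool.Agent.Helper69.WV Pool.Agent.Helper53.BN

private theorem WtB_list (s : Multiset ℕ) (k : ℕ) (h : Multiset.card s = k) :
    ∃ m : Fin k → ℕ, Finset.univ.val.map m = s := by
  obtain ⟨l, rfl⟩ : ∃ l : List ℕ, (l : Multiset ℕ) = s := ⟨s.toList, s.coe_toList⟩
  have h' : l.length = k := by simpa using h
  clear h
  subst h'
  exact ⟨l.get, by rw [Fin.univ_val_map, List.ofFn_get]⟩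

/-- Every partition of `k` consists of the nonzero numbers of occurrences of the letters of some
word of length `k` in the letters `Fin k`. Proof: `a.parts` has at most `k` elements (all are
`≥ 1`, their sum is `k`); let `m : Fin k → ℕ` list the parts, followed by zeros (from
`a.parts.toList` and `List.getD`); `∑ x, m x = k`; so `Σ x, Fin (m x)` has `k` elements and is
equivalent to `Fin k`; `g` is this equivalence followed by `Sigma.fst`. -/
theorem exists_word {k : ℕ} (a : k.Partition) : ∃ (m : Fin k → ℕ) (g : Fin k → Fin k),
    a.parts = (Finset.univ.val.map m).filter (· ≠ 0) ∧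
      ∀ x, Fintype.card {i // g i = x} = m x := by
  classical
  have hcard : Multiset.card a.parts ≤ k := by
    have h1 := Multiset.card_nsmul_le_sum (s := a.parts) (a := 1) fun x hx => a.parts_pos hx
    rwa [smul_eq_mul, mul_one, a.parts_sum] at h1
  obtain ⟨m, hm⟩ := WtB_list (a.parts + Multiset.replicate (k - Multiset.card a.parts) 0) k (by
    rw [Multiset.card_add, Multiset.card_replicate]
    omega)
  have hsum : ∑ x, m x = k := by
    change (Multiset.map m Finset.univ.val).sum = k
    rw [hm, Multiset.sum_add, a.parts_sum, Multiset.sum_replicate, smul_zero, add_zero]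
  have hc : Fintype.card (Fin k) = Fintype.card (Σ x : Fin k, Fin (m x)) := by
    rw [Fintype.card_sigma, Fintype.card_fin]
    simp only [Fintype.card_fin]
    exact hsum.symm
  let e := Fintype.equivOfCardEq hc
  refine ⟨m, fun i => (e i).1, ?_, fun x => ?_⟩
  · rw [hm, Multiset.filter_add]
    have h1 : Multiset.filter (fun x => x ≠ 0) a.parts = a.parts :=
      Multiset.filter_eq_self.2 fun x hx => (a.parts_pos hx).ne'
    have h2 : Multiset.filter (fun x : ℕ => x ≠ 0)
        (Multiset.replicate (k - Multiset.card a.parts) 0) = 0 :=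
      Multiset.filter_eq_nil.2 fun x hx => by
        rw [Multiset.eq_of_mem_replicate hx]
        simp
    rw [h1, h2, add_zero]
  · have e1 : {i // (e i).1 = x} ≃ {s : Σ x : Fin k, Fin (m x) // s.1 = x} :=
      e.subtypeEquiv fun i => Iff.rfl
    rw [Fintype.card_congr (e1.trans (Equiv.sigmaSubtype x)), Fintype.card_fin]

end Pool.Agent.Helper69.QB
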