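import Pool.Agent.Helper69.QB.Wt
import Pool.Agent.Helper69.QB.WtB
import Pool.Agent.Helper69.QB.EqM

/-!
Project QB, piece FC: the assignment of the pairs of letters to the classes.
-/

set_option autoImplicit false

namespace Pool.Agent.Helper69.QB

open Pool.Agent.Helper69.WV Pool.Agent.Helper53.BN

private theorem fc_map_sum {E : Type} [Fintype E] (ω : E → ℕ) :
    Finset.univ.val.map ω = ∑ x : E, ({ω x} : Multiset ℕ) := by
  have h := Multiset.sum_map_singleton (Finset.univ.val.map ω)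
  rw [Multiset.map_map] at h
  exact h.symm

private theorem fc_weights {k n : ℕ} (a : k.Partition) (m : Fin n → ℕ)
    (h : a.parts = (Finset.univ.val.map m).filter (· ≠ 0)) :
    ∑ p : {p : Fin n × Fin n // p.1 < p.2 ∧ m p.1 * m p.2 ≠ 0},
      ({m p.1.1 * m p.1.2} : Multiset ℕ) = weights a := by
  rw [weights_eq a m h, Multiset.filter_map]
  have h1 := Finset.sum_subtype (F := inferInstance)
    (p := fun p : Fin n × Fin n => p.1 < p.2 ∧ m p.1 * m p.2 ≠ 0)
    ((Finset.univ.filter fun p : Fin n × Fin n => p.1 < p.2).filter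
      fun p => m p.1 * m p.2 ≠ 0) (by intro x; simp)
    (fun p => ({m p.1 * m p.2} : Multiset ℕ))
  rw [← h1]
  have h2 := Multiset.sum_map_singleton
    (((Finset.univ.filter fun p : Fin n × Fin n => p.1 < p.2).filter
      fun p => m p.1 * m p.2 ≠ 0).val.map fun p => m p.1 * m p.2)
  rw [Multiset.map_map] at h2
  refine Eq.trans ?_ h2
  rfl

private theorem fc_slots {l : ℕ} (p : l.Partition) :
    ∑ s : Fin p.parts.toList.length, ({p.parts.toList.get s} : Multiset ℕ) = p.parts := by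
  rw [← fc_map_sum, Fin.univ_val_map, List.ofFn_get, Multiset.coe_toList]

private theorem fc_slots_sum {l : ℕ} (p : l.Partition) :
    ∑ s : Fin p.parts.toList.length, p.parts.toList.get s = l := by
  have h := congrArg Multiset.sum (fc_slots p)
  have h2 : Multiset.sum (∑ s : Fin p.parts.toList.length, ({p.parts.toList.get s} : Multiset ℕ)) =
      ∑ s : Fin p.parts.toList.length, p.parts.toList.get s := by
    rw [← fc_map_sum]
    rfl
  rw [← h2, h, p.parts_sum]

private theorem fc_two {k : ℕ} (a : k.Partition) (m : Fin k → ℕ) (g : Fin k → Fin k)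
    (h : a.parts = (Finset.univ.val.map m).filter (· ≠ 0))
    (hg : ∀ x, Fintype.card {i // g i = x} = m x) (h2 : 1 < Multiset.card a.parts) :
    ∃ i j, g i ≠ g j := by
  have h3 : 1 < (Finset.univ.filter fun x : Fin k => m x ≠ 0).card := by
    rw [h, Multiset.filter_map, Multiset.card_map] at h2
    exact h2
  obtain ⟨x, hx, y, hy, hxy⟩ := Finset.one_lt_card.mp h3
  rw [Finset.mem_filter] at hx hy
  have hx' : 0 < Fintype.card {i // g i = x} := by
    rw [hg]
    exact Nat.pos_of_ne_zero hx.2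
  have hy' : 0 < Fintype.card {i // g i = y} := by
    rw [hg]
    exact Nat.pos_of_ne_zero hy.2
  obtain ⟨⟨i, hi⟩⟩ := Fintype.card_pos_iff.mp hx'
  obtain ⟨⟨j, hj⟩⟩ := Fintype.card_pos_iff.mp hy'
  exact ⟨i, j, by rw [hi, hj]; exact hxy⟩

/-- The number of ordered pairs of positions whose letters `x < y` satisfy a condition. -/
private theorem fc_count {A : Type} [Fintype A] {k : ℕ} (f : A → Fin k → Fin k)
    (μ : A → Fin k → ℕ) (hμ : ∀ a x, Fintype.card {i // f a i = x} = μ a x)
    (P : A → Fin k → Fin k → Prop) [∀ a x y, Decidable (P a x y)]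
    (hP : ∀ a x y, P a x y → P a y x) :
    Nat.card {p : A × Fin k × Fin k // p.2.1 < p.2.2 ∧ f p.1 p.2.1 ≠ f p.1 p.2.2 ∧
      P p.1 (f p.1 p.2.1) (f p.1 p.2.2)} =
      ∑ a, ∑ p : Fin k × Fin k, if p.1 < p.2 ∧ P a p.1 p.2 then μ a p.1 * μ a p.2 else 0 := by
  classical
  have e1 : Nat.card {p : A × Fin k × Fin k // p.2.1 < p.2.2 ∧ f p.1 p.2.1 ≠ f p.1 p.2.2 ∧
      P p.1 (f p.1 p.2.1) (f p.1 p.2.2)} =
      ((Finset.univ : Finset (A × Fin k × Fin k)).filter fun p => p.2.1 < p.2.2 ∧
        f p.1 p.2.1 ≠ f p.1 p.2.2 ∧ P p.1 (f p.1 p.2.1) (f p.1 p.2.2)).card := by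
    rw [Nat.card_eq_fintype_card, Fintype.card_subtype]
  have e2 : ((Finset.univ : Finset (A × Fin k × Fin k)).filter fun p => p.2.1 < p.2.2 ∧
        f p.1 p.2.1 ≠ f p.1 p.2.2 ∧ P p.1 (f p.1 p.2.1) (f p.1 p.2.2)).card =
      ((Finset.univ : Finset (A × Fin k × Fin k)).filter fun p =>
        f p.1 p.2.1 < f p.1 p.2.2 ∧ P p.1 (f p.1 p.2.1) (f p.1 p.2.2)).card := by
    apply Finset.card_nbij'
      (fun p => if f p.1 p.2.1 < f p.1 p.2.2 then p else (p.1, p.2.2, p.2.1))
      (fun p => if p.2.1 < p.2.2 then p else (p.1, p.2.2, p.2.1))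
    · rintro ⟨a, i, j⟩ hp
      simp only [Finset.coe_filter, Finset.mem_univ, true_and, Set.mem_ofPred_eq] at hp ⊢
      by_cases h : f a i < f a j
      · simp only [h, if_true]
        exact ⟨trivial, hp.2.2⟩
      · simp only [h, if_false]
        exact ⟨lt_of_le_of_ne (not_lt.mp h) (Ne.symm hp.2.1), hP _ _ _ hp.2.2⟩
    · rintro ⟨a, i, j⟩ hp
      simp only [Finset.coe_filter, Finset.mem_univ, true_and, Set.mem_ofPred_eq] at hp ⊢
      by_cases h : i < j
      · simp only [h, if_true]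
        exact ⟨trivial, hp.1.ne, hp.2⟩
      · simp only [h, if_false]
        have hij : i ≠ j := by
          rintro rfl
          exact lt_irrefl _ hp.1
        exact ⟨lt_of_le_of_ne (not_lt.mp h) (Ne.symm hij), hp.1.ne', hP _ _ _ hp.2⟩
    · rintro ⟨a, i, j⟩ hp
      simp only [Finset.coe_filter, Finset.mem_univ, true_and, Set.mem_ofPred_eq] at hp ⊢
      by_cases h : f a i < f a j
      · simp only [h, if_true, hp.1]
      · simp only [h, if_false, not_lt.mpr hp.1.le]
    · rintro ⟨a, i, j⟩ hp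
      simp only [Finset.coe_filter, Finset.mem_univ, true_and, Set.mem_ofPred_eq] at hp ⊢
      by_cases h : i < j
      · simp only [h, if_true, hp.1]
      · simp only [h, if_false, not_lt.mpr hp.1.le]
  rw [e1, e2]
  have e3 := Finset.card_eq_sum_card_fiberwise
    (f := fun p : A × Fin k × Fin k => (p.1, f p.1 p.2.1, f p.1 p.2.2))
    (s := (Finset.univ : Finset (A × Fin k × Fin k)).filter fun p =>
        f p.1 p.2.1 < f p.1 p.2.2 ∧ P p.1 (f p.1 p.2.1) (f p.1 p.2.2))
    (t := (Finset.univ : Finset (A × Fin k × Fin k)).filter fun p =>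
        p.2.1 < p.2.2 ∧ P p.1 p.2.1 p.2.2)
    (by
      rintro ⟨a, i, j⟩ hp
      simpa using hp)
  rw [e3, Finset.sum_filter, Fintype.sum_prod_type]
  apply Finset.sum_congr rfl
  intro a _
  apply Finset.sum_congr rfl
  rintro ⟨x, y⟩ _
  by_cases h : x < y ∧ P a x y
  · rw [if_pos h, if_pos h]
    rw [← hμ a x, ← hμ a y, ← Fintype.card_prod]
    rw [← Fintype.card_coe]
    apply Fintype.card_congr
    refine ⟨fun p => (⟨p.1.2.1, ?_⟩, ⟨p.1.2.2, ?_⟩), fun q => ⟨(a, q.1.1, q.2.1), ?_⟩, ?_, ?_⟩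
    · obtain ⟨⟨b, i, j⟩, hp⟩ := p
      simp only [Finset.mem_filter, Finset.mem_univ, true_and, Prod.mk.injEq] at hp ⊢
      obtain ⟨-, rfl, h2, -⟩ := hp
      exact h2
    · obtain ⟨⟨b, i, j⟩, hp⟩ := p
      simp only [Finset.mem_filter, Finset.mem_univ, true_and, Prod.mk.injEq] at hp ⊢
      obtain ⟨-, rfl, -, h2⟩ := hp
      exact h2
    · obtain ⟨⟨i, hi⟩, ⟨j, hj⟩⟩ := q
      simp only [Finset.mem_filter, Finset.mem_univ, true_and, Prod.mk.injEq]
      rw [hi, hj]
      exact ⟨h, rfl, rfl⟩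
    · rintro ⟨⟨b, i, j⟩, hp⟩
      simp only [Finset.mem_filter, Finset.mem_univ, true_and, Prod.mk.injEq] at hp
      obtain ⟨-, rfl, -, -⟩ := hp
      rfl
    · rintro ⟨⟨i, hi⟩, ⟨j, hj⟩⟩
      rfl
  · rw [if_neg h, if_neg h]

/-- The assignment of the pairs of letters to the classes. Proof: base blocks
`A = Σ a, Fin (z a)`; for `a` let `m a`, `g a` be as in `exists_word`; `f (a, s) = g a`. Edges:
`E = {p : A × Fin k × Fin k // p.2.1 < p.2.2 ∧ m x * m y ≠ 0}`, weight `ω = m x * m y`
(`x = p.2.1`, `y = p.2.2`, `m` of the base block); their multiset of weights is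
`∑ a, z a • weights a` (`weights_eq`). Slots: `T = Σ p : l.Partition, Fin (y p) × Fin (card p.parts)`
with the weight = the corresponding part (`p.parts.toList`); their multiset of weights is
`∑ p, y p • p.parts`. `exists_equiv_of_map` gives `φ : E ≃ T`. The classes are
`Q = Σ p : l.Partition, Fin (y p)`, of cardinality `∑ p, y p`, equivalent to `Fin e`; the class of
an edge is the class of its slot. For letters `x > y` use `(y, x)`; for pairs which are no edges any
class. For a class `κ = (p, s)` the number of `(a, i, j)` with `i < j`, `f a i ≠ f a j` and class `κ`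
is the sum over the edges `(a, x < y)` of class `κ` of the number of pairs of positions `i < j`
with letters `{x, y}`, which is `m x * m y` (map `(i, j)` to (position of `x`, position of `y`)), so
it is the sum of the weights of the slots of `κ`, `p.parts.sum = l`. -/
theorem feasible_classes {k l : ℕ} {z : k.Partition → ℕ} {y : l.Partition → ℕ}
    (h : Feasible k l z y) : ∃ (A : Type) (_ : Fintype A) (f : A → Fin k → Fin k)
      (c : A → Fin k → Fin k → Fin (∑ p, y p)), Fintype.card A = ∑ a, z a ∧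
      (∀ a, ∃ i j, f a i ≠ f a j) ∧ (∀ a x y, c a x y = c a y x) ∧
      ∀ κ, Nat.card {p : A × Fin k × Fin k // p.2.1 < p.2.2 ∧
        f p.1 p.2.1 ≠ f p.1 p.2.2 ∧ c p.1 (f p.1 p.2.1) (f p.1 p.2.2) = κ} = l := by
  classical
  obtain ⟨h1, h2, h3⟩ := h
  choose m g hm hg using fun a : k.Partition => exists_word a
  -- the edges and the slots
  let A : Type := Σ a : k.Partition, Fin (z a)
  let Q : Type := Σ p : l.Partition, Fin (y p)
  let E : Type := Σ q : A, {p : Fin k × Fin k // p.1 < p.2 ∧ m q.1 p.1 * m q.1 p.2 ≠ 0}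
  let T : Type := Σ κ : Q, Fin κ.1.parts.toList.length
  let ω : E → ℕ := fun e => m e.1.1 e.2.1.1 * m e.1.1 e.2.1.2
  let τ : T → ℕ := fun t => t.1.1.parts.toList.get t.2
  have hE : Finset.univ.val.map ω = ∑ a, z a • weights a := by
    rw [fc_map_sum, Fintype.sum_sigma]
    rw [Fintype.sum_sigma]
    apply Finset.sum_congr rfl
    intro a _
    rw [Finset.sum_congr rfl fun s _ => fc_weights a (m a) (hm a)]
    rw [Finset.sum_const, Finset.card_univ, Fintype.card_fin]
  have hT : Finset.univ.val.map τ = ∑ p : l.Partition, y p • p.parts := by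
    rw [fc_map_sum, Fintype.sum_sigma]
    rw [Fintype.sum_sigma]
    apply Finset.sum_congr rfl
    intro p _
    rw [Finset.sum_congr rfl fun s _ => fc_slots p]
    rw [Finset.sum_const, Finset.card_univ, Fintype.card_fin]
  obtain ⟨φ, hφ⟩ := exists_equiv_of_map ω τ (by rw [hE, hT, h3])
  have hQ : Fintype.card Q = ∑ p, y p := by
    rw [Fintype.card_sigma]
    simp
  let ψ : Q ≃ Fin (∑ p, y p) := Fintype.equivFinOfCardEq hQ
  let C : A → Fin k × Fin k → Fin (∑ p, y p) := fun q p =>
    if h : p.1 < p.2 ∧ m q.1 p.1 * m q.1 p.2 ≠ 0 then ψ (φ ⟨q, ⟨p, h⟩⟩).1 else ⟨0, h2⟩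
  refine ⟨A, inferInstance, fun q => g q.1, fun q x y => C q (min x y, max x y), ?_, ?_, ?_, ?_⟩
  · rw [Fintype.card_sigma]
    simp
  · rintro ⟨a, s⟩
    apply fc_two a (m a) (g a) (hm a) (hg a)
    by_contra hcon
    rw [not_lt] at hcon
    have := h1 a hcon
    exact absurd s.2 (by omega)
  · intro q x y
    change C q (min x y, max x y) = C q (min y x, max y x)
    rw [min_comm x y, max_comm x y]
  · intro κ
    have key := fc_count (fun q : A => g q.1) (fun q => m q.1) (fun q x => hg q.1 x)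
      (fun q x y => C q (min x y, max x y) = κ)
      (fun q x y hxy => by rw [min_comm, max_comm]; exact hxy)
    rw [key]
    have e1 : ∀ q : A, (∑ p : Fin k × Fin k,
        if p.1 < p.2 ∧ C q (min p.1 p.2, max p.1 p.2) = κ then m q.1 p.1 * m q.1 p.2 else 0) =
        ∑ p : {p : Fin k × Fin k // p.1 < p.2 ∧ m q.1 p.1 * m q.1 p.2 ≠ 0},
          if ψ (φ ⟨q, p⟩).1 = κ then ω ⟨q, p⟩ else 0 := by
      intro q
      have h4 := Finset.sum_subtype (F := inferInstance)
        (p := fun p : Fin k × Fin k => p.1 < p.2 ∧ m q.1 p.1 * m q.1 p.2 ≠ 0)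
        (Finset.univ.filter fun p : Fin k × Fin k => p.1 < p.2 ∧ m q.1 p.1 * m q.1 p.2 ≠ 0)
        (by intro x; simp)
        (fun p => if C q p = κ then m q.1 p.1 * m q.1 p.2 else 0)
      have h5 : ∀ p : {p : Fin k × Fin k // p.1 < p.2 ∧ m q.1 p.1 * m q.1 p.2 ≠ 0},
          (if C q p.1 = κ then m q.1 p.1.1 * m q.1 p.1.2 else 0) =
          if ψ (φ ⟨q, p⟩).1 = κ then ω ⟨q, p⟩ else 0 := by
        rintro ⟨p, hp⟩
        have : C q p = ψ (φ ⟨q, ⟨p, hp⟩⟩).1 := dif_pos hp
        rw [this]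
      rw [← Finset.sum_congr rfl fun p _ => h5 p, ← h4, Finset.sum_filter]
      apply Finset.sum_congr rfl
      rintro ⟨x, y⟩ _
      by_cases hxy : x < y
      · rw [min_eq_left hxy.le, max_eq_right hxy.le]
        by_cases hz : m q.1 x * m q.1 y = 0
        · simp [hz]
        · by_cases hC : C q (x, y) = κ
          · simp [hxy, hz, hC]
          · simp [hC]
      · simp [hxy]
    rw [Finset.sum_congr rfl fun q _ => e1 q]
    have e2 : (∑ q : A, ∑ p : {p : Fin k × Fin k // p.1 < p.2 ∧ m q.1 p.1 * m q.1 p.2 ≠ 0},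
        if ψ (φ ⟨q, p⟩).1 = κ then ω ⟨q, p⟩ else 0) =
        ∑ e : E, if ψ (φ e).1 = κ then ω e else 0 :=
      (Fintype.sum_sigma (fun e : E => if ψ (φ e).1 = κ then ω e else 0)).symm
    rw [e2]
    have e3 : (∑ e : E, if ψ (φ e).1 = κ then ω e else 0) =
        ∑ t : T, if ψ t.1 = κ then τ t else 0 := by
      rw [← Equiv.sum_comp φ]
      apply Finset.sum_congr rfl
      intro e _
      rw [hφ]
    rw [e3, Fintype.sum_sigma]
    have e4 : ∀ κ' : Q, (∑ s : Fin κ'.1.parts.toList.length,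
        if ψ κ' = κ then τ ⟨κ', s⟩ else 0) = if ψ κ' = κ then l else 0 := by
      intro κ'
      by_cases hκ : ψ κ' = κ
      · simp only [hκ, if_true]
        exact fc_slots_sum κ'.1
      · simp [hκ]
    rw [Finset.sum_congr rfl fun κ' _ => e4 κ']
    rw [Equiv.sum_comp ψ (fun x => if x = κ then l else 0)]
    simp

end Pool.Agent.Helper69.QB
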