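import Pool.Agent.Helper69.QB.CycGen
import Pool.Agent.Helper69.QB.FeasClasses

/-!
Project QB: from feasible points of the linear program to designs on primes.
-/

set_option autoImplicit false

namespace Pool.Agent.Helper69.QB

open Pool.Agent.Helper69.WV Pool.Agent.Helper53.BN

/-- A feasible point gives designs with exactly the right number of blocks on all large primes in
a residue class. -/
theorem feasible_primes {k l : ℕ} {z : k.Partition → ℕ} {y : l.Partition → ℕ}
    (h : Feasible k l z y) : ∃ q0, ∀ q : ℕ, q.Prime → q0 ≤ q → q ≡ 1 [MOD 2 * ∑ p, y p] →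
      NB k l q ((∑ a, z a) * (q * ((q - 1) / (2 * ∑ p, y p)))) := by
  obtain ⟨A, hA, f, c, hcard, hf, hsym, hl⟩ := feasible_classes h
  obtain ⟨q0, hq0⟩ := cycGen k l (∑ p, y p) h.2.1 A f hf c hsym hl
  refine ⟨q0, fun q hq hqq hmod => ?_⟩
  have := hq0 q hq hqq hmod
  rwa [hcard] at this

end Pool.Agent.Helper69.QB
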