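import Pool.Agent.Helper69.QB.Defs

/-!
Project QB, fixed concurrence: elementary number theory for the assembly.
-/

set_option autoImplicit false

namespace Pool.Agent.Helper69.QB

open Pool.Agent.Helper69.WV Pool.Agent.Helper53.BN

/-- All integers of an interval as `T0 + i Δ + j D`. -/
theorem int_rep {T0 D Δ R b : ℕ} (hΔ : 0 < Δ) (h : Nat.Coprime D Δ) (h1 : T0 + Δ * D ≤ b)
    (h2 : b ≤ T0 + R * Δ) : ∃ i j, i ≤ R ∧ j < Δ ∧ b = T0 + i * Δ + j * D := by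
  obtain ⟨j, hj⟩ := meetsAll_div Δ D (b - T0) hΔ h
  have hj1 : D * (j % Δ) ≡ b - T0 [MOD Δ] := ((Nat.mod_modEq j Δ).mul_left D).trans hj
  have hlt : j % Δ < Δ := Nat.mod_lt _ hΔ
  have hle : D * (j % Δ) ≤ b - T0 := by
    have : D * (j % Δ) ≤ D * Δ := Nat.mul_le_mul_left _ hlt.le
    have h3 : D * Δ = Δ * D := mul_comm _ _
    omega
  obtain ⟨i, hi⟩ := (Nat.modEq_iff_dvd' hle).1 hj1
  refine ⟨i, j % Δ, ?_, hlt, ?_⟩
  · have h4 : Δ * i ≤ R * Δ := by omega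
    rw [mul_comm R Δ] at h4
    exact Nat.le_of_mul_le_mul_left h4 hΔ
  · have h5 : b = T0 + (b - T0) := by omega
    have h6 : b - T0 = Δ * i + D * (j % Δ) := by omega
    rw [h5, h6]
    ring

/-- A number in a given interval of length `N` in a given residue class. -/
theorem pick_range (N U0 x : ℕ) (hN : 0 < N) : ∃ u, U0 ≤ u ∧ u < U0 + N ∧ u ≡ x [MOD N] := by
  refine ⟨U0 + (x + N * U0 - U0) % N, Nat.le_add_right _ _, ?_, ?_⟩
  · have := Nat.mod_lt (x + N * U0 - U0) hN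
    omega
  · have h1 : U0 ≤ N * U0 := Nat.le_mul_of_pos_left _ hN
    have h2 : U0 + (x + N * U0 - U0) % N ≡ U0 + (x + N * U0 - U0) [MOD N] :=
      (Nat.mod_modEq _ _).add_left _
    have h3 : U0 + (x + N * U0 - U0) = x + N * U0 := by omega
    rw [h3] at h2
    refine h2.trans ?_
    have h4 : x + N * U0 ≡ x + 0 [MOD N] :=
      Nat.ModEq.add_left _ ((Nat.modEq_zero_iff_dvd).2 (Dvd.intro _ rfl))
    simpa using h4

/-- The choice of the size of the hole. -/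
theorem pick_u {m w q v U0 : ℕ} (hm : 2 ≤ m) (hw : 0 < w) (hq : q.Prime) (hqm : m * w < q)
    (h : ∃ u0, (m - 1) * u0 + 1 ≡ v [MOD m * w]) :
    ∃ u, U0 ≤ u ∧ u < U0 + m * w * q ∧ (m - 1) * u + 1 ≡ v [MOD m * w] ∧
      q ∣ (m - 1) * u + 1 := by
  obtain ⟨u0, hu0⟩ := h
  have hmw : 0 < m * w := Nat.mul_pos (by omega) hw
  have hmle : m ≤ m * w := Nat.le_mul_of_pos_right _ hw
  have hc1 : Nat.Coprime (m - 1) q :=
    (Nat.Coprime.symm ((Nat.Prime.coprime_iff_not_dvd hq).2 fun hd => by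
      have := Nat.le_of_dvd (by omega) hd
      omega))
  have hc2 : Nat.Coprime (m * w) q :=
    (Nat.Coprime.symm ((Nat.Prime.coprime_iff_not_dvd hq).2 fun hd => by
      have := Nat.le_of_dvd hmw hd
      omega))
  obtain ⟨u1, hu1⟩ := meetsAll_div q (m - 1) (q - 1) hq.pos hc1
  obtain ⟨x, hx1, hx2⟩ := Nat.chineseRemainder hc2 u0 u1
  obtain ⟨u, h1, h2, h3⟩ := pick_range (m * w * q) U0 x (Nat.mul_pos hmw hq.pos)
  refine ⟨u, h1, h2, ?_, ?_⟩
  · have h4 : u ≡ u0 [MOD m * w] := (h3.of_dvd (Dvd.intro _ rfl)).trans hx1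
    exact ((h4.mul_left (m - 1)).add_right 1).trans hu0
  · have h4 : u ≡ u1 [MOD q] := (h3.of_dvd (Dvd.intro_left _ rfl)).trans hx2
    have h5 : (m - 1) * u + 1 ≡ q - 1 + 1 [MOD q] :=
      ((h4.mul_left (m - 1)).trans hu1).add_right 1
    have h6 : q - 1 + 1 = q := Nat.succ_pred_eq_of_pos hq.pos
    rw [h6] at h5
    have h7 : (m - 1) * u + 1 ≡ 0 [MOD q] :=
      h5.trans ((Nat.modEq_zero_iff_dvd).2 dvd_rfl)
    exact (Nat.modEq_zero_iff_dvd).1 h7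

end Pool.Agent.Helper69.QB
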