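import Pool.Agent.Helper69.QB.FixW
import Pool.Agent.Helper69.QB.FixR
import Pool.Agent.Helper69.QB.FixD
import Pool.Agent.Helper69.QB.FeasDesign
import Pool.Agent.Helper69.QB.Beta

/-!
Project QB, fixed concurrence: the parameters of the assembly.
-/

set_option autoImplicit false

namespace Pool.Agent.Helper69.QB

open Pool.Agent.Helper69.WV Pool.Agent.Helper53.BN

private theorem fixP_count {n N m : ℕ} (hN : 0 < N) (hm : 0 < m) (h : m ≡ 1 [MOD 2 * N]) :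
    ((n * (m * ((m - 1) / (2 * N))) : ℕ) : ℝ) = (n : ℝ) / N * ((m : ℝ) * ((m : ℝ) - 1) / 2) := by
  obtain ⟨j, hj⟩ := (Nat.modEq_iff_dvd' hm).1 h.symm
  rw [hj, Nat.mul_div_cancel_left _ (Nat.mul_pos two_pos hN)]
  have h1 : (m : ℝ) - 1 = 2 * N * j := by
    have h2 : m = 2 * N * j + 1 := by omega
    rw [h2]
    push_cast
    ring
  have hN' : (N : ℝ) ≠ 0 := by exact_mod_cast hN.ne'
  rw [h1]
  push_cast
  field_simp

/-- The parameters of the construction. -/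
theorem fixed_params (k l : ℕ) (hk : 3 ≤ k) (hl : 2 ≤ l) (ε : ℝ) (hε : 0 < ε)
    (hne : (1 + ε) * ((l : ℝ) / (C2 k : ℝ)) ≤ (1 - ε) * beta k l) :
    ∃ m w s0 s1 cB : ℕ, m.Prime ∧ 2 < m ∧ 0 < w ∧ TD k w ∧ (∀ t, Adm k l (t * w + 1)) ∧
      Even (m - 1) ∧ NB k l m s0 ∧ NB k l m s1 ∧ s0 < s1 ∧ DC k l cB (hol m w (m - 1)) ∧
      (∀ v, 0 < v → Adm k l v → ∃ u0, (m - 1) * u0 + 1 ≡ v [MOD m * w]) ∧
      (1 - ε) * beta k l * (m : ℝ) ^ 2 * (w : ℝ) ^ 2 / 2 < (w : ℝ) ^ 2 * s1 ∧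
      (w : ℝ) ^ 2 * s0 + (m : ℝ) * ((l : ℝ) / ((k : ℝ) - 1)) * (w : ℝ) ^ 2 / 2 <
        (1 + ε) * ((l : ℝ) / (C2 k : ℝ)) * (m : ℝ) ^ 2 * (w : ℝ) ^ 2 / 2 := by
  have hk' : (3 : ℝ) ≤ k := by exact_mod_cast hk
  have hl' : (2 : ℝ) ≤ l := by exact_mod_cast hl
  have hC2 : (C2 k : ℝ) = (k : ℝ) * ((k : ℝ) - 1) / 2 := C2_cast k
  have hC2p : (0 : ℝ) < (C2 k : ℝ) := by
    rw [hC2]
    nlinarith
  set lam : ℝ := (l : ℝ) / (C2 k : ℝ) with hlam
  have hlamp : 0 < lam := div_pos (by linarith) hC2p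
  have hβ : 0 < beta k l := by
    have h1 : 0 < (1 - ε) * beta k l := lt_of_lt_of_le (by positivity) hne
    have h2 : 0 ≤ beta k l := by
      have := beta_ge k l (by omega)
      exact le_trans (Nat.cast_nonneg _) this
    rcases h2.eq_or_lt with h | h
    · rw [← h] at h1
      simp at h1
    · exact h
  have hε1 : ε < 1 := by
    by_contra hcon
    have h1 : 0 < (1 - ε) * beta k l := lt_of_lt_of_le (by positivity) hne
    nlinarith
  obtain ⟨z1, y1, hf1, hx1⟩ := exists_near k l (by omega) (x := (1 - ε / 2) * beta k l)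
    (by nlinarith)
  obtain ⟨z0, y0, hf0, hz0, hy0⟩ := feasible_min k l (by omega)
  set N1 : ℕ := ∑ p, y1 p with hN1
  set n1 : ℕ := ∑ a, z1 a with hn1
  set N0 : ℕ := ∑ p, y0 p with hN0
  have hN1p : 0 < N1 := hf1.2.1
  have hN0p : 0 < N0 := hf0.2.1
  obtain ⟨q1, hq1⟩ := feasible_primes hf1
  obtain ⟨q0, hq0⟩ := feasible_primes hf0
  obtain ⟨M1, hM1⟩ := exists_nat_ge (((k : ℝ) + 2) / ε)
  obtain ⟨w, hw0, hwT, hwK, hwA, m, hmp, hmM, hm2, hm1, hmT, hmu⟩ :=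
    choose_wm k l hk hl (2 * N0 * N1) (q0 + q1 + M1)
      (Nat.mul_pos (Nat.mul_pos two_pos hN0p) hN1p) ((even_two_mul N0).mul_right N1)
  have hmN0 : m ≡ 1 [MOD 2 * N0] := hm1.of_dvd (Dvd.intro _ rfl)
  have hmN1 : m ≡ 1 [MOD 2 * N1] := hm1.of_dvd ⟨N0, by ring⟩
  have hs0 : NB k l m (l * (m * ((m - 1) / (2 * N0)))) := by
    have := hq0 m hmp (by omega) hmN0
    rwa [hz0] at this
  have hs1 : NB k l m (n1 * (m * ((m - 1) / (2 * N1)))) := hq1 m hmp (by omega) hmN1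
  have hc0 := fixP_count (n := l) hN0p hmp.pos hmN0
  have hc1 := fixP_count (n := n1) hN1p hmp.pos hmN1
  have hN0C : (N0 : ℝ) = (C2 k : ℝ) := by
    have : N0 = C2 k := hy0
    rw [this]
  rw [hN0C, ← hlam] at hc0
  set s0 : ℕ := l * (m * ((m - 1) / (2 * N0))) with hs0'
  set s1 : ℕ := n1 * (m * ((m - 1) / (2 * N1))) with hs1'
  set ρ : ℝ := (n1 : ℝ) / N1 with hρ
  have hm3 : (3 : ℝ) ≤ m := by exact_mod_cast hm2
  have hmM1 : ((k : ℝ) + 2) / ε < m := lt_of_le_of_lt hM1 (by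
    have : M1 < m := by omega
    exact_mod_cast this)
  have hmε : (k : ℝ) + 2 < ε * m := by
    rw [div_lt_iff₀ hε] at hmM1
    linarith
  have hmm : (0 : ℝ) < (m : ℝ) * ((m : ℝ) - 1) / 2 := by nlinarith
  have hρl : lam < ρ := by nlinarith
  have hw' : (0 : ℝ) < (w : ℝ) ^ 2 := by
    have : (0 : ℝ) < w := by exact_mod_cast hw0
    positivity
  obtain ⟨cB, hcB⟩ := DD.dc (holeGroup glue k l w m hwK (nb_ks hs0) hmp.pos hmT)
  refine ⟨m, w, s0, s1, cB, hmp, hm2, hw0, hwT, hwA, ?_, hs0, hs1, ?_, hcB, hmu, ?_, ?_⟩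
  · have h2 : m ≡ 1 [MOD 2] := hmN0.of_dvd (Dvd.intro _ rfl)
    rw [even_iff_two_dvd]
    exact (Nat.modEq_iff_dvd' hmp.one_le).1 h2.symm
  · have h1 : (s0 : ℝ) < s1 := by
      rw [hc0, hc1]
      exact mul_lt_mul_of_pos_right hρl hmm
    exact_mod_cast h1
  · rw [hc1]
    have h1 : (1 - ε) * beta k l * m < ρ * ((m : ℝ) - 1) := by
      have h2 : (1 - ε / 2) * beta k l * ((m : ℝ) - 1) < ρ * ((m : ℝ) - 1) :=
        mul_lt_mul_of_pos_right hx1 (by linarith)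
      have h3 : (1 - ε) * m ≤ (1 - ε / 2) * ((m : ℝ) - 1) := by nlinarith
      have h4 : (1 - ε) * m * beta k l ≤ (1 - ε / 2) * ((m : ℝ) - 1) * beta k l :=
        mul_le_mul_of_nonneg_right h3 hβ.le
      nlinarith
    have h5 : (1 - ε) * beta k l * m * (m * (w : ℝ) ^ 2 / 2) <
        ρ * ((m : ℝ) - 1) * (m * (w : ℝ) ^ 2 / 2) :=
      mul_lt_mul_of_pos_right h1 (by positivity)
    nlinarith
  · rw [hc0]
    have hmu2 : (l : ℝ) / ((k : ℝ) - 1) = lam * k / 2 := by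
      rw [hlam, hC2]
      have : (k : ℝ) - 1 ≠ 0 := by linarith
      field_simp
    rw [hmu2]
    have h1 : lam * ((m : ℝ) - 1 + k / 2) < lam * ((1 + ε) * m) :=
      mul_lt_mul_of_pos_left (by nlinarith) hlamp
    have h2 : lam * ((m : ℝ) - 1 + k / 2) * (m * (w : ℝ) ^ 2 / 2) <
        lam * ((1 + ε) * m) * (m * (w : ℝ) ^ 2 / 2) :=
      mul_lt_mul_of_pos_right h1 (by positivity)
    nlinarith

end Pool.Agent.Helper69.QB
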