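import Pool.Agent.Helper69.QB.Defs

/-!
Project QB, fixed concurrence: the choice of the weight `w` and of the prime `m`.
-/

set_option autoImplicit false

namespace Pool.Agent.Helper69.QB

open Pool.Agent.Helper69.WV Pool.Agent.Helper53.BN

private theorem fixW_prime {E p : ℕ} (hE : 0 < E) (hp : p.Prime) (hp2 : 2 < p) (hpE : E < p)
    (M : ℕ) : ∃ m, m.Prime ∧ M < m ∧ m ≡ 1 [MOD E] ∧ Nat.Coprime (m - 1) (m * p) := by
  have hc : Nat.Coprime E p :=
    (Nat.Coprime.symm ((Nat.Prime.coprime_iff_not_dvd hp).2 fun hd => by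
      have := Nat.le_of_dvd hE hd
      omega))
  obtain ⟨x, hx1, hx2⟩ := Nat.chineseRemainder hc 1 2
  have hx : Nat.Coprime x (E * p) := by
    refine Nat.Coprime.mul_right ?_ ?_
    · have h1 : Nat.gcd x E = Nat.gcd 1 E := hx1.gcd_eq
      rw [Nat.coprime_iff_gcd_eq_one, h1]
      exact Nat.gcd_one_left _
    · have h1 : Nat.gcd x p = Nat.gcd 2 p := hx2.gcd_eq
      rw [Nat.coprime_iff_gcd_eq_one, h1]
      exact (Nat.coprime_primes Nat.prime_two hp).2 (by omega)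
  obtain ⟨m, hmM, hmp, hmx⟩ := Nat.forall_exists_prime_gt_and_modEq M
    (Nat.mul_pos hE hp.pos).ne' hx
  refine ⟨m, hmp, hmM, (hmx.of_dvd (Dvd.intro _ rfl)).trans hx1, ?_⟩
  have h2 : m ≡ 2 [MOD p] := (hmx.of_dvd (Dvd.intro_left _ rfl)).trans hx2
  have h3 : m - 1 + 1 = m := Nat.succ_pred_eq_of_pos hmp.pos
  refine Nat.Coprime.mul_right ?_ ?_
  · nth_rewrite 2 [← h3]
    exact (Nat.coprime_self_add_right).2 (Nat.coprime_one_right _)
  · have h4 : m - 1 ≡ 1 [MOD p] := by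
      have h5 : m - 1 + 1 ≡ 1 + 1 [MOD p] := by rw [h3]; exact h2
      exact Nat.ModEq.add_right_cancel' 1 h5
    rw [Nat.coprime_iff_gcd_eq_one, h4.gcd_eq]
    exact Nat.gcd_one_left _

/-- The choice of the weight `w` and of the number `m` of groups. -/
theorem choose_wm (k l : ℕ) (hk : 3 ≤ k) (hl : 2 ≤ l) (E M0 : ℕ) (hE : 0 < E) (hE2 : Even E) :
    ∃ w, 0 < w ∧ TD k w ∧ w + 1 ∈ KS k l ∧ (∀ t, Adm k l (t * w + 1)) ∧
      ∃ m, m.Prime ∧ M0 < m ∧ 2 < m ∧ m ≡ 1 [MOD E] ∧ TD (w + 1) m ∧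
        ∀ v, 0 < v → Adm k l v → ∃ u0, (m - 1) * u0 + 1 ≡ v [MOD m * w] := by
  obtain ⟨n0, hn0⟩ := hTD k
  obtain ⟨v0, hv0⟩ := main k hk
  obtain ⟨p, hpM, hp⟩ := Nat.exists_infinite_primes (n0 + v0 + E + 3)
  by_cases hkl : Even k ∨ Even l
  · obtain ⟨n1, hn1⟩ := hTD (p + 1)
    obtain ⟨m, hmp, hmM, hm1, hmc⟩ := fixW_prime hE hp (by omega) (by omega) (M0 + n1 + 3)
    have hadm : ∀ t, Adm k l (t * p + 1) := by
      intro t
      rcases hkl with h | h
      · exact Or.inl h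
      · exact Or.inr (h.mul_right _)
    refine ⟨p, hp.pos, hn0 p (by omega), hv0 (p + 1) (by omega) l hl ?_, hadm, m, hmp, by omega,
      by omega, hm1, hn1 m (by omega), ?_⟩
    · have := hadm 1
      rwa [one_mul] at this
    · intro v hv _
      obtain ⟨u0, hu0⟩ := meetsAll_div (m * p) (m - 1) (v - 1) (Nat.mul_pos hmp.pos hp.pos) hmc
      refine ⟨u0, ?_⟩
      have h1 := hu0.add_right 1
      rwa [Nat.sub_add_cancel hv] at h1
  · push Not at hkl
    obtain ⟨hk1, hl1⟩ := hkl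
    obtain ⟨n1, hn1⟩ := hTD (2 * p + 1)
    obtain ⟨m, hmp, hmM, hm1, hmc⟩ := fixW_prime hE hp (by omega) (by omega) (M0 + n1 + 3)
    have hadm : ∀ t, Adm k l (t * (2 * p) + 1) := by
      intro t
      refine Or.inr ?_
      rw [Nat.add_sub_cancel]
      exact ((even_two_mul p).mul_left t).mul_left l
    have hmo : Even (m - 1) := by
      have h2 : m ≡ 1 [MOD 2] := hm1.of_dvd (even_iff_two_dvd.1 hE2)
      rw [even_iff_two_dvd]
      exact (Nat.modEq_iff_dvd' hmp.one_le).1 h2.symm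
    refine ⟨2 * p, by omega, hn0 (2 * p) (by omega), hv0 (2 * p + 1) (by omega) l hl ?_, hadm, m,
      hmp, by omega, by omega, hm1, hn1 m (by omega), ?_⟩
    · have := hadm 1
      rwa [one_mul] at this
    · intro v hv hadmv
      have hve : Even (v - 1) := by
        rcases hadmv with h | h
        · exact absurd h hk1
        · exact (Nat.even_mul.1 h).resolve_left hl1
      obtain ⟨v', hv'⟩ := even_iff_two_dvd.1 hve
      obtain ⟨m', hm'⟩ := even_iff_two_dvd.1 hmo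
      have hc : Nat.Coprime m' (m * p) := Nat.Coprime.coprime_dvd_left (Dvd.intro_left 2 hm'.symm) hmc
      obtain ⟨u0, hu0⟩ := meetsAll_div (m * p) m' v' (Nat.mul_pos hmp.pos hp.pos) hc
      refine ⟨u0, ?_⟩
      have h1 : 2 * (m' * u0) ≡ 2 * v' [MOD 2 * (m * p)] := Nat.ModEq.mul_left' 2 hu0
      have h2 := h1.add_right 1
      rw [← mul_assoc 2 m' u0, ← hm', ← hv', Nat.sub_add_cancel hv] at h2
      rwa [show m * (2 * p) = 2 * (m * p) by ring]

end Pool.Agent.Helper69.QB
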