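import Pool.Agent.Helper69.QB.FixI
import Pool.Agent.Helper69.QB.FixP
import Pool.Agent.Helper69.QB.TwoSizes

/-!
Project QB: fixed concurrence, all numbers of blocks between `(1 + ε)` times the trivial lower bound
and `(1 - ε)` times the optimum of the linear program.
-/

set_option autoImplicit false

namespace Pool.Agent.Helper69.QB

open Pool.Agent.Helper69.WV Pool.Agent.Helper53.BN

private theorem fixed_adm {k l m u q n : ℕ} (hm : Even (m - 1)) (hn : (m - 1) * u + 1 = q * n) :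
    Adm k l n := by
  refine Or.inr (Even.mul_left ?_ _)
  have hodd : Odd ((m - 1) * u + 1) := (hm.mul_right u).add_one
  rw [hn] at hodd
  exact (Nat.odd_mul.1 hodd).2.tsub_odd odd_one

theorem fixed (k l : ℕ) (hk : 3 ≤ k) (hl : 2 ≤ l) (ε : ℝ) (hε : 0 < ε) :
    ∃ v₀, ∀ v, v₀ ≤ v → Adm k l v → ∀ b : ℕ,
      (1 + ε) * ((l : ℝ) * (C2 v : ℝ) / (C2 k : ℝ)) ≤ b →
      (b : ℝ) ≤ (1 - ε) * (beta k l * (C2 v : ℝ)) → NB k l v b := by
  by_cases hne : (1 + ε) * ((l : ℝ) / (C2 k : ℝ)) ≤ (1 - ε) * beta k l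
  swap
  · refine ⟨2, fun v hv _ b hb1 hb2 => absurd ?_ hne⟩
    have hv' : (2 : ℝ) ≤ v := by exact_mod_cast hv
    have hC : (0 : ℝ) < (C2 v : ℝ) := by
      rw [C2_cast]
      nlinarith
    have h1 := hb1.trans hb2
    have h2 : (1 + ε) * ((l : ℝ) / (C2 k : ℝ)) * (C2 v : ℝ) ≤ (1 - ε) * beta k l * (C2 v : ℝ) := by
      calc (1 + ε) * ((l : ℝ) / (C2 k : ℝ)) * (C2 v : ℝ)
          = (1 + ε) * ((l : ℝ) * (C2 v : ℝ) / (C2 k : ℝ)) := by ring
        _ ≤ (1 - ε) * (beta k l * (C2 v : ℝ)) := h1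
        _ = (1 - ε) * beta k l * (C2 v : ℝ) := by ring
    exact le_of_mul_le_mul_right h2 hC
  obtain ⟨m, w, s0, s1, cB, hmp, hm2, hw0, hwT, hwA, hme, hs0, hs1, hs01, hcB, hmu, hup, hlo⟩ :=
    fixed_params k l hk hl ε hε hne
  have hk' : (3 : ℝ) ≤ k := by exact_mod_cast hk
  have hl' : (2 : ℝ) ≤ l := by exact_mod_cast hl
  have hC2k : (C2 k : ℝ) = (k : ℝ) * ((k : ℝ) - 1) / 2 := C2_cast k
  have hC2p : (0 : ℝ) < (C2 k : ℝ) := by
    rw [hC2k]
    nlinarith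
  have hβ' : 0 ≤ (1 - ε) * beta k l := le_trans (by positivity) hne
  set Δ : ℕ := w ^ 2 * (s1 - s0) with hΔ
  have hΔp : 0 < Δ := Nat.mul_pos (pow_pos hw0 2) (Nat.sub_pos_of_lt hs01)
  obtain ⟨q, g, D, hqp, hqm, hg, hgD, hD, hDΔ⟩ := two_sizes k l hk hl Δ (m * w) hΔp
  obtain ⟨n1, hn1⟩ := hTD (q + 1)
  obtain ⟨n2, hn2⟩ := hTD (m + 1)
  obtain ⟨v1, hv1⟩ := main k hk
  set U0 : ℕ := q * (n1 + v1 + Δ + 1) with hU0
  set U : ℕ := U0 + m * w * q with hU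
  set K : ℕ := (m - 1) * U + 1 with hK
  set F : ℝ := (K : ℝ) * K * g + q * (l * (K : ℝ) ^ 2) + Δ * D with hF
  obtain ⟨t1, ht1⟩ := upper_ineq m w K U ((1 - ε) * beta k l) s1 hβ' hup (Nat.cast_nonneg _)
  obtain ⟨t2, ht2⟩ := lower_ineq m w ((1 + ε) * ((l : ℝ) / (C2 k : ℝ))) ((l : ℝ) / ((k : ℝ) - 1))
    s0 ((U : ℝ) * cB) F (by positivity) hlo
  set T : ℕ := U + n2 + v1 + t1 + t2 + 1 with hT
  refine ⟨m * w * T + K + 1, fun v hv hadm b hb1 hb2 => ?_⟩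
  have hv0 : 0 < v := by omega
  obtain ⟨u, hu1, hu2, hu3, hu4⟩ := pick_u (U0 := U0) (by omega) hw0 hqp hqm (hmu v hv0 hadm)
  have huU : u ≤ U := hu2.le
  have hm1p : 0 < m - 1 := by omega
  have huK : (m - 1) * u + 1 ≤ K := by
    have := Nat.mul_le_mul_left (m - 1) huU
    omega
  have hmw : 0 < m * w := Nat.mul_pos hmp.pos hw0
  obtain ⟨t, ht⟩ := (Nat.modEq_iff_dvd' (by omega : (m - 1) * u + 1 ≤ v)).1 hu3
  have hvt : v = (m - 1) * u + 1 + m * w * t := by omega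
  have htT : T ≤ t := by
    by_contra hcon
    have h1 : m * w * t ≤ m * w * T := Nat.mul_le_mul_left _ (not_le.1 hcon).le
    omega
  obtain ⟨n, hn⟩ := hu4
  have hnn : n1 + v1 + Δ + 1 ≤ n := by
    have h1 : q * (n1 + v1 + Δ + 1) ≤ q * n := by
      rw [← hn]
      have h2 : u ≤ (m - 1) * u := Nat.le_mul_of_pos_left _ hm1p
      omega
    exact Nat.le_of_mul_le_mul_left h1 hqp.pos
  have hadmn : Adm k l n := fixed_adm hme hn
  obtain ⟨c, hc⟩ := nb_of_ks (hv1 n (by omega) l hl hadmn)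
  have hct' : t * w + 1 ∈ KS k l := by
    refine hv1 _ ?_ l hl (hwA t)
    have : t ≤ t * w := Nat.le_mul_of_pos_right _ hw0
    omega
  obtain ⟨ct, hct⟩ := nb_of_ks hct'
  -- the integers
  set T0 : ℕ := t * (t - u) * (w ^ 2 * s0) + u * t * cB + m * ct + (n * n * g + q * c) with hT0
  have hut : u ≤ t := by omega
  have hlow : ((T0 + Δ * D : ℕ) : ℝ) ≤ (b : ℝ) := by
    have h1 := ht2 t (by omega) v (by omega)
    have h2 : (1 + ε) * ((l : ℝ) / (C2 k : ℝ)) * (C2 v : ℝ) ≤ (b : ℝ) := by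
      refine le_trans (le_of_eq ?_) hb1
      ring
    refine le_trans ?_ (h1.trans h2)
    have hnK : n ≤ K := by
      have h3 : n ≤ q * n := Nat.le_mul_of_pos_left _ hqp.pos
      omega
    have hcb : c ≤ l * K ^ 2 :=
      (nb_bound hc).trans (Nat.mul_le_mul_left _ (Nat.pow_le_pow_left hnK 2))
    have e1 : n * n * g ≤ K * K * g := Nat.mul_le_mul_right _ (Nat.mul_le_mul hnK hnK)
    have e2 : q * c ≤ q * (l * K ^ 2) := Nat.mul_le_mul_left _ hcb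
    have e3 : u * t * cB ≤ U * cB * t := by
      calc u * t * cB ≤ U * t * cB := Nat.mul_le_mul_right _ (Nat.mul_le_mul_right _ huU)
        _ = U * cB * t := by ring
    have e4 : t * (t - u) * (w ^ 2 * s0) ≤ w ^ 2 * s0 * t ^ 2 := by
      calc t * (t - u) * (w ^ 2 * s0) ≤ t * t * (w ^ 2 * s0) :=
            Nat.mul_le_mul_right _ (Nat.mul_le_mul_left _ (Nat.sub_le _ _))
        _ = w ^ 2 * s0 * t ^ 2 := by ring
    have e5 : (ct : ℝ) ≤ (l : ℝ) / ((k : ℝ) - 1) * (((w : ℝ) * t + 1) * ((w : ℝ) * t) / 2) := by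
      have h3 := nb_le_beta (k := k) (l := l) (by omega) (by
        have : 0 < t * w := Nat.mul_pos (by omega) hw0
        omega : 2 ≤ t * w + 1) hct
      have h4 : (((t * w + 1) * (t * w + 1 - 1) / 2 : ℕ) : ℝ) =
          ((w : ℝ) * t + 1) * ((w : ℝ) * t) / 2 := by
        have := C2_cast (t * w + 1)
        rw [C2] at this
        rw [this]
        push_cast
        ring
      rw [h4] at h3
      exact h3.trans (mul_le_mul_of_nonneg_right (beta_le k l (by omega)) (by positivity))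
    have e6 : (m : ℝ) * (ct : ℝ) ≤
        m * ((l : ℝ) / ((k : ℝ) - 1) * (((w : ℝ) * t + 1) * ((w : ℝ) * t) / 2)) :=
      mul_le_mul_of_nonneg_left e5 (Nat.cast_nonneg _)
    have e1' : ((n * n * g : ℕ) : ℝ) ≤ ((K * K * g : ℕ) : ℝ) := by exact_mod_cast e1
    have e2' : ((q * c : ℕ) : ℝ) ≤ ((q * (l * K ^ 2) : ℕ) : ℝ) := by exact_mod_cast e2
    have e3' : ((u * t * cB : ℕ) : ℝ) ≤ ((U * cB * t : ℕ) : ℝ) := by exact_mod_cast e3
    have e4' : ((t * (t - u) * (w ^ 2 * s0) : ℕ) : ℝ) ≤ ((w ^ 2 * s0 * t ^ 2 : ℕ) : ℝ) := by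
      exact_mod_cast e4
    have e0 : ((T0 + Δ * D : ℕ) : ℝ) = ((t * (t - u) * (w ^ 2 * s0) : ℕ) : ℝ) +
        ((u * t * cB : ℕ) : ℝ) + (m : ℝ) * ct + (((n * n * g : ℕ) : ℝ) + ((q * c : ℕ) : ℝ)) +
        (Δ : ℝ) * D := by
      rw [hT0]
      push_cast
      ring
    rw [e0, hF]
    push_cast at e1' e2' e3' e4' ⊢
    linarith
  have hhigh : (b : ℝ) ≤ ((T0 + t * (t - u) * Δ : ℕ) : ℝ) := by
    have h1 := ht1 t (by omega) u v huU hv0 (by
      rw [hvt]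
      omega)
    have h2 : (b : ℝ) ≤ (1 - ε) * beta k l * (C2 v : ℝ) := hb2.trans (le_of_eq (by ring))
    refine (h2.trans h1).trans ?_
    have e1 : w ^ 2 * s1 = w ^ 2 * s0 + Δ := by
      obtain ⟨d, rfl⟩ := Nat.exists_eq_add_of_le hs01.le
      rw [hΔ, Nat.add_sub_cancel_left]
      ring
    have e2 : t * (t - u) * (w ^ 2 * s1) ≤ T0 + t * (t - u) * Δ := by
      rw [e1, mul_add, hT0]
      omega
    have e3 : ((t * (t - u) * (w ^ 2 * s1) : ℕ) : ℝ) ≤ ((T0 + t * (t - u) * Δ : ℕ) : ℝ) := by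
      exact_mod_cast e2
    refine le_trans (le_of_eq ?_) e3
    push_cast [Nat.cast_sub hut]
    ring
  have hlow' : T0 + Δ * D ≤ b := by exact_mod_cast hlow
  have hhigh' : b ≤ T0 + t * (t - u) * Δ := by exact_mod_cast hhigh
  obtain ⟨i, j, hi, hj, hb⟩ := int_rep hΔp hDΔ hlow' hhigh'
  have hjn : j ≤ n * n := by
    have h1 : Δ ≤ n := by omega
    have h2 : n ≤ n * n := Nat.le_mul_of_pos_left _ (by omega)
    omega
  have hfill := hole_fill hqp.two_le (hn1 n (by omega)) hg hgD hc hjn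
  rw [← hn, mul_comm (m - 1) u] at hfill
  have hfin := fixed_design (by omega) (by omega) hut (hn2 t (by omega)) hwT hs0 hs1 hs01.le hcB hi
    hct hfill
  have ev : m * (t * w) + u * (m - 1) + 1 = v := by
    rw [hvt]
    ring
  rw [ev] at hfin
  refine DC.cast hfin ?_
  rw [hb, hT0, hΔ]
  ring

end Pool.Agent.Helper69.QB
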