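import Pool.Agent.Helper69.QB.WtA

/-!
Project QB: the weights of a block in terms of the multiplicities of the letters.
-/

set_option autoImplicit false

namespace Pool.Agent.Helper69.QB

open Pool.Agent.Helper69.WV Pool.Agent.Helper53.BN

/-- The weights of the partition whose parts are the nonzero values of `m`. -/
theorem weights_eq {k n : ℕ} (a : k.Partition) (m : Fin n → ℕ)
    (h : a.parts = (Finset.univ.val.map m).filter (· ≠ 0)) :
    weights a = (((Finset.univ : Finset (Fin n × Fin n)).filter (fun p => p.1 < p.2)).val.map
        (fun p => m p.1 * m p.2)).filter (· ≠ 0) := by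
  unfold weights
  rw [h, wt_filter, wt_pairs]

end Pool.Agent.Helper69.QB
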