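import Pool.Agent.Helper69.QB.Defs

/-!
Project QB, piece WA: the weights of a block.
-/

set_option autoImplicit false

namespace Pool.Agent.Helper69.QB

open Pool.Agent.Helper69.WV Pool.Agent.Helper53.BN

/-- Every element of `powersetCard 2` of a multiset with the products: leaving out the zero
elements is the same as leaving out the products `0`. Proof: induction on `s` with
`Multiset.powersetCard_cons` (`powersetCard 2 (a ::ₘ s) = powersetCard 2 s + (powersetCard 1 s).map
(cons a)`, `Multiset.powersetCard_one`), `Multiset.filter_add`, `Multiset.filter_cons`. -/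
theorem wt_filter (s : Multiset ℕ) :
    ((s.filter (· ≠ 0)).powersetCard 2).map Multiset.prod =
      ((s.powersetCard 2).map Multiset.prod).filter (· ≠ 0) := by
  induction s using Multiset.induction_on with
  | empty => simp
  | cons a s ih =>
    have e : ∀ t : Multiset ℕ, (Multiset.powersetCard 2 (a ::ₘ t)).map Multiset.prod =
        (Multiset.powersetCard 2 t).map Multiset.prod + t.map (fun x => a * x) := by
      intro t
      rw [show (2 : ℕ) = 1 + 1 from rfl, Multiset.powersetCard_cons, Multiset.map_add,
        Multiset.powersetCard_one, Multiset.map_map, Multiset.map_map]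
      congr 1
      refine Multiset.map_congr rfl fun x _ => ?_
      simp
    rw [e, Multiset.filter_add, ← ih]
    by_cases ha : a = 0
    · subst ha
      have h1 : Multiset.filter (fun x : ℕ => x ≠ 0) (0 ::ₘ s) = Multiset.filter (fun x : ℕ => x ≠ 0) s := by
        simp
      rw [h1]
      have h0 : Multiset.filter (fun x : ℕ => x ≠ 0) (s.map (fun x => 0 * x)) = 0 := by
        refine Multiset.filter_eq_nil.2 fun y hy => ?_
        obtain ⟨x, _, rfl⟩ := Multiset.mem_map.1 hy
        simp
      rw [h0, add_zero]
    · have h1 : Multiset.filter (fun x : ℕ => x ≠ 0) (a ::ₘ s) =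
          a ::ₘ Multiset.filter (fun x : ℕ => x ≠ 0) s := by
        simp [ha]
      rw [h1, e]
      congr 1
      rw [Multiset.filter_map]
      congr 1
      refine Multiset.filter_congr fun x _ => ?_
      simp [ha]

/-- The pairs `x < y` of `Fin n` and `powersetCard 2`. Proof: induction on `n` (`Fin.univ_succ` or
`Fin.univ_castSuccEmb`, `Multiset.powersetCard_cons`), or: `Multiset.powersetCard_map`,
`Finset.powersetCard 2 univ` and the bijection with the pairs `x < y`. -/
theorem wt_pairs {n : ℕ} (m : Fin n → ℕ) :
    ((Finset.univ.val.map m).powersetCard 2).map Multiset.prod =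
      ((Finset.univ : Finset (Fin n × Fin n)).filter (fun p => p.1 < p.2)).val.map
        (fun p => m p.1 * m p.2) := by
  induction n with
  | zero =>
    have h1 : (Finset.univ : Finset (Fin 0)) = ∅ := rfl
    have h2 : (Finset.univ : Finset (Fin 0 × Fin 0)) = ∅ := rfl
    rw [h1, h2]
    simp
  | succ n ih =>
    have hi1 : Function.Injective (fun j : Fin n => ((0 : Fin (n + 1)), j.succ)) := by
      intro i j h
      exact Fin.succ_injective _ (Prod.mk.inj h).2
    have hi2 : Function.Injective (fun p : Fin n × Fin n => (p.1.succ, p.2.succ)) := by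
      rintro ⟨i, j⟩ ⟨i', j'⟩ h
      have h1 := Fin.succ_injective _ (Prod.mk.inj h).1
      have h2 := Fin.succ_injective _ (Prod.mk.inj h).2
      simp only at h1 h2
      rw [h1, h2]
    have hd : Disjoint ((Finset.univ : Finset (Fin n)).map ⟨_, hi1⟩)
        (((Finset.univ : Finset (Fin n × Fin n)).filter (fun p => p.1 < p.2)).map ⟨_, hi2⟩) := by
      rw [Finset.disjoint_left]
      intro p hp hq
      obtain ⟨j, _, rfl⟩ := Finset.mem_map.1 hp
      obtain ⟨r, _, hr⟩ := Finset.mem_map.1 hq
      exact Fin.succ_ne_zero _ (Prod.mk.inj hr).1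
    have key : (Finset.univ : Finset (Fin (n + 1) × Fin (n + 1))).filter (fun p => p.1 < p.2) =
        ((Finset.univ : Finset (Fin n)).map ⟨_, hi1⟩).disjUnion
          (((Finset.univ : Finset (Fin n × Fin n)).filter (fun p => p.1 < p.2)).map ⟨_, hi2⟩) hd := by
      ext ⟨i, j⟩
      rw [Finset.mem_disjUnion, Finset.mem_filter, Finset.mem_map, Finset.mem_map]
      refine Fin.cases ?_ (fun i => ?_) i
      · refine Fin.cases ?_ (fun j => ?_) j
        · simp
        · simp
      · refine Fin.cases ?_ (fun j => ?_) j
        · simp
        · simp only [Finset.mem_univ, true_and, Function.Embedding.coeFn_mk, Fin.succ_lt_succ_iff,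
            Finset.mem_filter]
          constructor
          · intro h
            exact Or.inr ⟨(i, j), h, rfl⟩
          · rintro (⟨a, ha⟩ | ⟨⟨a, b⟩, ha, hb⟩)
            · exact absurd (Prod.mk.inj ha).1.symm (Fin.succ_ne_zero _)
            · have h1 := Fin.succ_injective _ (Prod.mk.inj hb).1
              have h2 := Fin.succ_injective _ (Prod.mk.inj hb).2
              simp only at h1 h2
              rw [← h1, ← h2]
              exact ha
    have hu : (Finset.univ : Finset (Fin (n + 1))).val.map m =
        m 0 ::ₘ (Finset.univ : Finset (Fin n)).val.map (fun i => m i.succ) := by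
      rw [Fin.univ_succ]
      simp [Function.comp_def]
    rw [hu, key, Finset.disjUnion_val, Finset.map_val, Finset.map_val, Multiset.map_add,
      Multiset.map_map, Multiset.map_map, show (2 : ℕ) = 1 + 1 from rfl, Multiset.powersetCard_cons,
      Multiset.map_add, Multiset.powersetCard_one, Multiset.map_map, Multiset.map_map,
      Multiset.map_map, add_comm]
    congr 1
    · refine Multiset.map_congr rfl fun x _ => ?_
      simp
    · rw [show (1 + 1 : ℕ) = 2 from rfl, ih (fun i => m i.succ)]
      rfl

end Pool.Agent.Helper69.QB
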